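import Pool.Agent.X136.DP.PathLim

set_option autoImplicit false

/-!
# The probability that an edge is examined; explicit conditions
-/

namespace Pool.Agent.X136.DP

open H974 Finset H342P H984P H984H MeasureTheory ProbabilityTheory Filter Topology
open Pool.Agent.X136.QC (pl fair Stop)
open Pool.Agent.X136.QE (Fr xe xe_pos path_arm path_darm OA CA OA_crs CA_crs)

theorem vis_neg {e : Edg} (h : e.2.1 < 0) : vis e = 0 := by
  have h1 : {ω : Conf | Fr e ∧ ∃ k, xe (path ω k) = e} = ∅ := by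
    ext ω
    simp only [Set.mem_ofPred_eq, Set.mem_empty_iff_false, iff_false]
    rintro ⟨hf, -⟩
    exact absurd hf.1 (by omega)
  unfold vis
  rw [h1]
  simp

theorem ex_two {ω : Conf} {e : Edg} (hf : Fr e) {k : ℕ} (he : xe (path ω k) = e) {D : ℕ}
    (hD : (D : ℤ) = e.2.1) : OA (e.1, e.2.1) D ω ∧ CA (e.1, e.2.1) D ω := by
  have h1 := xe_pos (path ω k)
  rw [he] at h1
  have h2 := arms_face (path ω k)
  constructor
  · obtain ⟨j, hj, hr⟩ := path_arm ω k
    refine ⟨(path ω k).1, (j, 0), ?_, ?_, hr⟩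
    · unfold inR
      simp only
      omega
    · simp only
      omega
  · have hup : 0 ≤ (face (path ω k)).2 := by
      clear h1 h2
      generalize path ω k = σ at he
      obtain ⟨⟨x, y⟩, q⟩ := σ
      subst he
      obtain ⟨f1, f2⟩ := hf
      cases q <;> simp only [xe, Bool.false_eq_true, and_false, not_false_eq_true, and_true]
        at f1 f2 <;> simp only [face_ne, face_nw, face_sw, face_se] <;> omega
    obtain ⟨j, hj, hr⟩ := path_darm ω k hup
    refine ⟨face (path ω k), (j, 0), ?_, ?_, hr⟩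
    · unfold inR
      simp only
      have h3 : (face (path ω k)).1 ≤ e.1 + 1 := by omega
      clear hr
      generalize path ω k = σ at *
      obtain ⟨⟨x, y⟩, q⟩ := σ
      subst he
      cases q <;> simp only [xe, face_ne, face_nw, face_sw, face_se] at * <;> omega
    · simp only
      omega

/-- **The probability that an edge at height `y` is examined is at most `C (y + 1) ^ (-1/4)`.** -/
theorem vis_le : ∃ C : ℝ, 0 < C ∧ ∀ e : Edg, 0 ≤ e.2.1 →
    vis e ≤ C * ((e.2.1 : ℝ) + 1) ^ (-(1/4) : ℝ) := by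
  obtain ⟨-, -, ⟨C, hC, hA⟩⟩ := Pool.Agent.Results.MP_6c8efb_pr.Displacement.inputs
  refine ⟨2 * C + 1, by positivity, ?_⟩
  intro e he0
  have hvis1 : vis e ≤ 1 := measureReal_le_one
  rcases eq_or_lt_of_le he0 with h0 | h0
  · rw [← h0]
    simp only [Int.cast_zero, zero_add, Real.one_rpow, mul_one]
    linarith
  obtain ⟨D, hD⟩ := Int.eq_ofNat_of_zero_le he0
  have hD1 : 1 ≤ D := by omega
  set ρ : ℤ := |e.1| + |e.2.1| + D + 2 with hρ
  have h1 : vis e ≤ perc.real {ω | H12S.Crs e.1 e.2.1 1 D (↑(cut ω ρ) : Set Edg) ∧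
      H12S.DCrs e.1 e.2.1 1 D (↑((bx ρ).edges \ cut ω ρ) : Set Edg)} := by
    refine measureReal_mono ?_
    rintro ω ⟨hf, k, hk⟩
    obtain ⟨a1, a2⟩ := ex_two hf hk hD.symm
    exact ⟨OA_crs (z := (e.1, e.2.1)) le_rfl a1, CA_crs (z := (e.1, e.2.1)) le_rfl a2⟩
  rw [perc_cut ρ (fun F => H12S.Crs e.1 e.2.1 1 D (↑F : Set Edg) ∧
    H12S.DCrs e.1 e.2.1 1 D (↑((bx ρ).edges \ F) : Set Edg))] at h1
  have h2 := hA 1 D le_rfl hD1 e.1 e.2.1 (bx ρ).edges
  refine h1.trans (h2.trans ?_)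
  have hDR : (1 : ℝ) ≤ D := by exact_mod_cast hD1
  have hD0 : (0 : ℝ) < D := by linarith
  rw [hD]
  push_cast
  have h3 : ((1 : ℝ) / D) ^ (1 / 4 : ℝ) ≤ 2 * ((D : ℝ) + 1) ^ (-(1/4) : ℝ) := by
    have h4 : (1 : ℝ) / D ≤ 2 * (1 / (D + 1)) := by
      rw [mul_one_div, div_le_div_iff₀ hD0 (by linarith)]
      linarith
    have h5 : ((1 : ℝ) / D) ^ (1 / 4 : ℝ) ≤ (2 * (1 / ((D : ℝ) + 1))) ^ (1 / 4 : ℝ) :=
      Real.rpow_le_rpow (by positivity) h4 (by norm_num)
    refine h5.trans ?_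
    rw [Real.mul_rpow (by norm_num) (by positivity), one_div ((D : ℝ) + 1),
      Real.inv_rpow (by positivity), ← Real.rpow_neg (by positivity)]
    refine mul_le_mul_of_nonneg_right ?_ (by positivity)
    calc (2 : ℝ) ^ (1 / 4 : ℝ) ≤ 2 ^ (1 : ℝ) :=
          Real.rpow_le_rpow_of_exponent_le (by norm_num) (by norm_num)
      _ = 2 := Real.rpow_one 2
  have h6 : 0 ≤ ((D : ℝ) + 1) ^ (-(1/4) : ℝ) := by positivity
  calc C * ((1 : ℝ) / D) ^ (1 / 4 : ℝ) ≤ C * (2 * ((D : ℝ) + 1) ^ (-(1/4) : ℝ)) :=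
        mul_le_mul_of_nonneg_left h3 hC.le
    _ ≤ (2 * C + 1) * ((D : ℝ) + 1) ^ (-(1/4) : ℝ) := by nlinarith

/-- the sum of the squared biases with weights `(y + 1) ^ (-1/4)` -/
theorem summable_of_weight {q : Edg → unitInterval}
    (h : Summable fun e : Edg => if 0 ≤ e.2.1 then
      (2 * (q e : ℝ) - 1) ^ 2 * ((e.2.1 : ℝ) + 1) ^ (-(1/4) : ℝ) else 0) :
    Summable fun e => (2 * (q e : ℝ) - 1) ^ 2 * vis e := by
  obtain ⟨C, hC, hv⟩ := vis_le
  refine Summable.of_nonneg_of_le (fun e => mul_nonneg (sq_nonneg _) (vis_nonneg e)) (fun e => ?_)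
    (h.mul_left C)
  split_ifs with he
  · calc (2 * (q e : ℝ) - 1) ^ 2 * vis e ≤ (2 * (q e : ℝ) - 1) ^ 2 *
        (C * ((e.2.1 : ℝ) + 1) ^ (-(1/4) : ℝ)) := mul_le_mul_of_nonneg_left (hv e he) (sq_nonneg _)
      _ = _ := by ring
  · rw [vis_neg (by omega)]
    simp

theorem summable_int {p : ℝ} (hp : 1 < p) :
    Summable fun x : ℤ => (|(x : ℝ)| + 1) ^ (-p) := by
  have h1 : Summable fun n : ℕ => ((n : ℝ) + 1) ^ (-p) := by
    have h := (Real.summable_nat_rpow (p := -p)).2 (by linarith)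
    have h' := (summable_nat_add_iff (f := fun n : ℕ => (n : ℝ) ^ (-p)) 1).2 h
    refine h'.congr fun k => ?_
    push_cast
    rfl
  refine Summable.of_nat_of_neg ?_ ?_
  · refine h1.congr fun n => ?_
    simp
  · refine h1.congr fun n => ?_
    simp

theorem summable_edg {p : ℝ} (hp : 1 < p) :
    Summable fun e : Edg => (|(e.1 : ℝ)| + 1) ^ (-p) * (|(e.2.1 : ℝ)| + 1) ^ (-p) := by
  have h1 := summable_int hp
  have h2 : Summable fun _ : Bool => (1 : ℝ) := Summable.of_finite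
  have h3 := h1.mul_of_nonneg h2 (fun x => by positivity) (fun x => by simp)
  have h4 := h1.mul_of_nonneg h3 (fun x => by positivity) (fun x => by
    simp only [Pi.zero_apply, mul_one]
    positivity)
  refine h4.congr fun e => ?_
  simp

/-- **Explicit condition.** -/
theorem summable_of_decay {q : Edg → unitInterval} {K s : ℝ} (hs : 7/8 < s)
    (h : ∀ᶠ e : Edg in cofinite, 0 ≤ e.2.1 →
      |2 * (q e : ℝ) - 1| ≤ K * (|(e.1 : ℝ)| + |(e.2.1 : ℝ)| + 1) ^ (-s)) :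
    Summable fun e : Edg => if 0 ≤ e.2.1 then
      (2 * (q e : ℝ) - 1) ^ 2 * ((e.2.1 : ℝ) + 1) ^ (-(1/4) : ℝ) else 0 := by
  set η : ℝ := s - 7/8 with hη
  have hη0 : 0 < η := by linarith
  have h1 := (summable_edg (p := 1 + η) (by linarith)).mul_left (K ^ 2)
  refine Summable.of_norm_bounded_eventually h1 ?_
  filter_upwards [h] with e he
  split_ifs with hy
  · have hyR : (0 : ℝ) ≤ e.2.1 := by exact_mod_cast hy
    have h2 := he hy
    rw [abs_of_nonneg hyR] at h2 ⊢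
    set X : ℝ := |(e.1 : ℝ)| + 1 with hX
    set Y : ℝ := (e.2.1 : ℝ) + 1 with hY
    set Z : ℝ := |(e.1 : ℝ)| + (e.2.1 : ℝ) + 1 with hZ
    have hx0 := abs_nonneg (e.1 : ℝ)
    have hX0 : 0 < X := by positivity
    have hY0 : 0 < Y := by positivity
    have hZ0 : 0 < Z := by positivity
    have hXZ : X ≤ Z := by linarith
    have hYZ : Y ≤ Z := by linarith
    rw [Real.norm_eq_abs, abs_of_nonneg (mul_nonneg (sq_nonneg _) (by positivity))]
    have h3 : (2 * (q e : ℝ) - 1) ^ 2 ≤ K ^ 2 * Z ^ (-(2 * s)) := by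
      calc (2 * (q e : ℝ) - 1) ^ 2 = |2 * (q e : ℝ) - 1| ^ 2 := (sq_abs _).symm
        _ ≤ (K * Z ^ (-s)) ^ 2 := pow_le_pow_left₀ (abs_nonneg _) h2 2
        _ = K ^ 2 * Z ^ (-(2 * s)) := by
            rw [mul_pow, ← Real.rpow_natCast (Z ^ (-s)) 2, ← Real.rpow_mul hZ0.le]
            congr 2
            push_cast
            ring
    have h4 : Z ^ (-(2 * s)) = Z ^ (-(1 + η)) * Z ^ (-(3/4 + η)) := by
      rw [← Real.rpow_add hZ0]
      congr 1
      rw [hη]
      ring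
    have h5 : Z ^ (-(1 + η)) ≤ X ^ (-(1 + η)) :=
      Real.rpow_le_rpow_of_nonpos hX0 hXZ (by linarith)
    have h6 : Z ^ (-(3/4 + η)) ≤ Y ^ (-(3/4 + η)) :=
      Real.rpow_le_rpow_of_nonpos hY0 hYZ (by linarith)
    calc (2 * (q e : ℝ) - 1) ^ 2 * Y ^ (-(1/4) : ℝ)
        ≤ (K ^ 2 * (X ^ (-(1 + η)) * Y ^ (-(3/4 + η)))) * Y ^ (-(1/4) : ℝ) := by
          refine mul_le_mul_of_nonneg_right (h3.trans ?_) (by positivity)
          rw [h4]
          exact mul_le_mul_of_nonneg_left (mul_le_mul h5 h6 (by positivity) (by positivity))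
            (sq_nonneg K)
      _ = K ^ 2 * (X ^ (-(1 + η)) * (Y ^ (-(3/4 + η)) * Y ^ (-(1/4) : ℝ))) := by ring
      _ = K ^ 2 * (X ^ (-(1 + η)) * Y ^ (-(1 + η))) := by
          rw [← Real.rpow_add hY0]
          congr 3
          ring
  · rw [norm_zero]
    positivity

end Pool.Agent.X136.DP
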