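import Pool.Agent.X136.DP.Tv
import Pool.Agent.X136.CQ.Main
import Pool.Agent.X136.CQ.Trace

set_option autoImplicit false

/-!
# Functions of the large clusters when the parameters of the edges are changed
-/

namespace Pool.Agent.X136.DP

open Finset Pool.Agent.X136.QC Pool.Agent.X136.QE Pool.Agent.X136.CQ MeasureTheory
open ProbabilityTheory H342P.Plain Filter Topology
open Pool.Agent.X136.CQ.Model (opened Touches OfLarge OfLargest measurable_opened)

/-- the total squared bias of the edges of `W` -/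
noncomputable def SB {E : Type*} (q : E → unitInterval) (W : Finset E) : ℝ :=
  ∑ e ∈ W, (2 * (q e : ℝ) - 1) ^ 2

theorem SB_nonneg {E : Type*} (q : E → unitInterval) (W : Finset E) : 0 ≤ SB q W :=
  sum_nonneg fun _ _ => sq_nonneg _

theorem bq_bw (p : unitInterval) (b : Bool) : bq p b = bw p b := by
  unfold bq bw
  rfl

/-- expectations of functions of finitely many bits -/
theorem pl_pw {E : Type*} [DecidableEq E] (q : E → unitInterval) (W : Finset E)
    (g : (W → Bool) → ℝ) :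
    ∫ ω, g (fun i : W => ω i) ∂pl q = ∑ x : W → Bool, g x * pw (fun i : W => (q i : ℝ)) univ x := by
  rw [pl_int]
  refine sum_congr rfl fun x _ => ?_
  unfold pw
  simp only [bq_bw]

theorem fair_av {E : Type*} [DecidableEq E] (W : Finset E) (g : (W → Bool) → ℝ) :
    ∫ ω, g (fun i : W => ω i) ∂fair E = av g := by
  rw [fair_int]
  rfl

/-- **Stopping sets and product measures.** -/
theorem tv_meas {E : Type*} [DecidableEq E] (q : E → unitInterval) (W : Finset E)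
    {J : (W → Bool) → Finset W} (hJ : Stop J) {g : (W → Bool) → ℝ} (hg1 : ∀ ω, |g ω| ≤ 1)
    (hg : ∀ ω ω' : W → Bool, (∀ i ∈ J ω, ω i = ω' i) → g ω' = g ω) :
    |∫ ω, g (fun i : W => ω i) ∂pl q - ∫ ω, g (fun i : W => ω i) ∂fair E| ≤
      14 * Real.sqrt (∑ i : W, (2 * (q i : ℝ) - 1) ^ 2 * rv J i) := by
  rw [pl_pw, fair_av]
  exact tv_stop hJ (fun i => ⟨(q i).2.1, (q i).2.2⟩) hg1 hg

open Classical in
/-- **Functions of the large clusters.** -/
theorem tv_large : ∃ C : ℝ, 0 < C ∧ ∀ (q : PEdge → unitInterval) (W : Finset PEdge) (m : ℕ),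
    1 ≤ m → ∀ g : Finset PEdge → ℝ, OfLarge m W g → (∀ F, |g F| ≤ 1) →
    |∫ ω, g (opened W ω) ∂pl q - ∫ ω, g (opened W ω) ∂fair PEdge| ≤
      C * Real.sqrt ((m : ℝ) ^ (-(5 / 48 : ℝ)) * SB q W) := by
  obtain ⟨C, hC, harm⟩ := arm_card
  refine ⟨14 * Real.sqrt (120 * C), by positivity, ?_⟩
  intro q W m hm1 g hg hg1
  set k : ℕ := (m + 1) / 2 with hk
  have hk1 : 1 ≤ k := by omega
  have hk0 : (0 : ℝ) < k := by exact_mod_cast hk1
  have hm0 : (0 : ℝ) < m := by exact_mod_cast hm1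
  have hcard : ((Finset.Icc (1 : ℤ) k).card : ℝ) = k := by
    rw [Int.card_Icc]; simp
  have hδ : ∀ i : W, ∑ x ∈ Finset.Icc (1 : ℤ) k,
      ((univ.filter fun ω => i ∈ JJ (eW W) (ph k x) 0 ω).card : ℝ) ≤
      (60 * C * (k : ℝ) ^ (-(5 / 48 : ℝ))) * k * (2 : ℝ) ^ Fintype.card W := by
    intro i
    have h1 : ∀ x ∈ Finset.Icc (1 : ℤ) k,
        ((univ.filter fun ω => i ∈ JJ (eW W) (ph k x) 0 ω).card : ℝ) ≤
        (C * (2 : ℝ) ^ Fintype.card W) * hw (5 / 48) (lev (Gr k x) (H342P.Plain.fst i)) +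
        (C * (2 : ℝ) ^ Fintype.card W) * hw (5 / 48) (lev (Gr k x) (H342P.Plain.snd i)) := by
      intro x _
      have h2 := card_touch (en := eW W) (ph k x) 0 i (u := H342P.Plain.fst i)
        (v := H342P.Plain.snd i) (ends_fl i)
      have h3 := harm (fun i : W => fl i) (fun a b h => Subtype.ext (fl_inj h)) (ph k x)
        (ph_lip k x) 0 (H342P.Plain.fst i)
      have h4 := harm (fun i : W => fl i) (fun a b h => Subtype.ext (fl_inj h)) (ph k x)
        (ph_lip k x) 0 (H342P.Plain.snd i)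
      have e : ∀ v, (0 - ph k x v).natAbs = lev (Gr k x) v := by
        intro v
        unfold ph
        omega
      rw [e] at h3 h4
      have h2' : ((univ.filter fun ω => i ∈ JJ (eW W) (ph k x) 0 ω).card : ℝ) ≤
          ((univ.filter fun ω => H342P.Plain.fst i ∈ CC (eW W) (ph k x) 0 ω).card : ℝ) +
          ((univ.filter fun ω => H342P.Plain.snd i ∈ CC (eW W) (ph k x) 0 ω).card : ℝ) := by
        exact_mod_cast h2
      have h3' : ((univ.filter fun ω => H342P.Plain.fst i ∈ CC (eW W) (ph k x) 0 ω).card : ℝ) ≤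
          C * hw (5 / 48) (lev (Gr k x) (H342P.Plain.fst i)) * (2 : ℝ) ^ Fintype.card W := h3
      have h4' : ((univ.filter fun ω => H342P.Plain.snd i ∈ CC (eW W) (ph k x) 0 ω).card : ℝ) ≤
          C * hw (5 / 48) (lev (Gr k x) (H342P.Plain.snd i)) * (2 : ℝ) ^ Fintype.card W := h4
      linarith
    refine (sum_le_sum h1).trans ?_
    rw [sum_add_distrib, ← mul_sum, ← mul_sum]
    have h5 := sum_grid hk1 (H342P.Plain.fst i)
    have h6 := sum_grid hk1 (H342P.Plain.snd i)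
    have h7 : (k : ℝ) ^ (1 - 5 / 48 : ℝ) = k * (k : ℝ) ^ (-(5 / 48 : ℝ)) := by
      rw [show (1 - 5 / 48 : ℝ) = 1 + (-(5 / 48)) by ring, Real.rpow_add hk0, Real.rpow_one]
    rw [h7] at h5 h6
    have hCN : 0 ≤ C * (2 : ℝ) ^ Fintype.card W := by positivity
    have h8 := mul_le_mul_of_nonneg_left h5 hCN
    have h9 := mul_le_mul_of_nonneg_left h6 hCN
    calc _ ≤ C * (2 : ℝ) ^ Fintype.card W * (30 * (k * (k : ℝ) ^ (-(5 / 48 : ℝ)))) +
        C * (2 : ℝ) ^ Fintype.card W * (30 * (k * (k : ℝ) ^ (-(5 / 48 : ℝ)))) := add_le_add h8 h9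
      _ = _ := by ring
  set V : ℤ → ℝ := fun x => ∑ i : W, (2 * (q i : ℝ) - 1) ^ 2 * rv (JJ (eW W) (ph k x) 0) i with hV
  have hVn : ∀ x, 0 ≤ V x := fun x => sum_nonneg fun i _ => mul_nonneg (sq_nonneg _) (rv_nonneg _ _)
  have e1 : ∀ ω : PEdge → Bool, g (opened W ω) = g (Fo W fun i : W => ω i) := fun ω => by
    rw [opened_eq]
  set D := |∫ ω, g (opened W ω) ∂pl q - ∫ ω, g (opened W ω) ∂fair PEdge| with hD
  have hx : ∀ x ∈ Finset.Icc (1 : ℤ) k, D ≤ 14 * Real.sqrt (V x) := by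
    intro x _
    rw [hD]
    simp only [e1]
    exact tv_meas q W (stop_JJ _ _) (g := fun y => g (Fo W y)) (fun _ => hg1 _)
      (fun y y' h => large_same hm1 x hg h)
  have hsum : k * D ≤ 14 * ∑ x ∈ Finset.Icc (1 : ℤ) k, Real.sqrt (V x) := by
    have := sum_le_sum hx
    rw [sum_const, nsmul_eq_mul, hcard, ← mul_sum] at this
    exact this
  have hcs : (∑ x ∈ Finset.Icc (1 : ℤ) k, Real.sqrt (V x)) ^ 2 ≤
      k * ∑ x ∈ Finset.Icc (1 : ℤ) k, V x := by
    have h := sum_mul_sq_le_sq_mul_sq (Finset.Icc (1 : ℤ) k) (fun _ => (1:ℝ))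
      (fun x => Real.sqrt (V x))
    simp only [one_mul, one_pow, sum_const, nsmul_eq_mul, mul_one, hcard] at h
    refine h.trans (le_of_eq ?_)
    congr 1
    exact sum_congr rfl fun x _ => Real.sq_sqrt (hVn x)
  have hVs : ∑ x ∈ Finset.Icc (1 : ℤ) k, V x ≤
      k * (60 * C * (k : ℝ) ^ (-(5 / 48 : ℝ)) * SB q W) := by
    rw [hV]
    simp only
    rw [sum_comm]
    have h1 : ∀ i : W, ∑ x ∈ Finset.Icc (1 : ℤ) k, (2 * (q i : ℝ) - 1) ^ 2 *
        rv (JJ (eW W) (ph k x) 0) i ≤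
        (2 * (q i : ℝ) - 1) ^ 2 * (60 * C * (k : ℝ) ^ (-(5 / 48 : ℝ)) * k) := by
      intro i
      rw [← mul_sum]
      refine mul_le_mul_of_nonneg_left ?_ (sq_nonneg _)
      unfold rv
      rw [← sum_div, div_le_iff₀ (by positivity)]
      exact hδ i
    refine (sum_le_sum fun i _ => h1 i).trans (le_of_eq ?_)
    rw [← sum_mul]
    have h2 : ∑ i : W, (2 * (q i : ℝ) - 1) ^ 2 = SB q W := by
      unfold SB
      exact sum_coe_sort W (fun e => (2 * (q e : ℝ) - 1) ^ 2)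
    rw [h2]
    ring
  have hS := SB_nonneg q W
  have h10 : (k : ℝ) ^ (-(5 / 48 : ℝ)) ≤ 2 * (m : ℝ) ^ (-(5 / 48 : ℝ)) := by
    have h11 : (m : ℝ) / 2 ≤ k := by
      have : m ≤ 2 * k := by omega
      have : (m : ℝ) ≤ 2 * k := by exact_mod_cast this
      linarith
    have h12 : (k : ℝ) ^ (-(5 / 48 : ℝ)) ≤ ((m : ℝ) / 2) ^ (-(5 / 48 : ℝ)) :=
      Real.rpow_le_rpow_of_nonpos (by positivity) h11 (by norm_num)
    refine h12.trans ?_
    rw [Real.div_rpow hm0.le (by norm_num), div_eq_mul_inv, mul_comm]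
    refine mul_le_mul_of_nonneg_right ?_ (by positivity)
    rw [← Real.rpow_neg (by norm_num), neg_neg]
    calc (2 : ℝ) ^ (5 / 48 : ℝ) ≤ 2 ^ (1 : ℝ) :=
          Real.rpow_le_rpow_of_exponent_le (by norm_num) (by norm_num)
      _ = 2 := Real.rpow_one 2
  have hfin : D ^ 2 ≤ 14 ^ 2 * ((120 * C) * ((m : ℝ) ^ (-(5 / 48 : ℝ)) * SB q W)) := by
    have hD0 : 0 ≤ D := abs_nonneg _
    have hk2 : (k * D) ^ 2 ≤ 14 ^ 2 * (k * (k * (60 * C * (k : ℝ) ^ (-(5 / 48 : ℝ)) * SB q W))) := by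
      calc (k * D) ^ 2 ≤ (14 * ∑ x ∈ Finset.Icc (1 : ℤ) k, Real.sqrt (V x)) ^ 2 :=
            pow_le_pow_left₀ (by positivity) hsum 2
        _ = 14 ^ 2 * (∑ x ∈ Finset.Icc (1 : ℤ) k, Real.sqrt (V x)) ^ 2 := by ring
        _ ≤ 14 ^ 2 * (k * ∑ x ∈ Finset.Icc (1 : ℤ) k, V x) :=
            mul_le_mul_of_nonneg_left hcs (by norm_num)
        _ ≤ _ := by
            refine mul_le_mul_of_nonneg_left ?_ (by norm_num)
            exact mul_le_mul_of_nonneg_left hVs hk0.le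
    have hk3 : (k:ℝ) ^ 2 * D ^ 2 ≤ (k:ℝ) ^ 2 *
        (14 ^ 2 * (60 * C * (k : ℝ) ^ (-(5 / 48 : ℝ)) * SB q W)) := by
      calc (k:ℝ) ^ 2 * D ^ 2 = (k * D) ^ 2 := by ring
        _ ≤ _ := hk2
        _ = _ := by ring
    have hk4 := le_of_mul_le_mul_left hk3 (by positivity)
    refine hk4.trans ?_
    have h5 : 60 * C * (k : ℝ) ^ (-(5 / 48 : ℝ)) * SB q W ≤
        60 * C * (2 * (m : ℝ) ^ (-(5 / 48 : ℝ))) * SB q W := by gcongr
    nlinarith
  have h6 := Real.abs_le_sqrt hfin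
  rw [abs_of_nonneg (abs_nonneg _)] at h6
  refine h6.trans (le_of_eq ?_)
  rw [Real.sqrt_mul (by norm_num), Real.sqrt_mul (by positivity), Real.sqrt_sq (by norm_num)]
  ring

open Classical in
/-- **Functions of the clusters of largest diameter.** -/
theorem tv_largest : ∃ C : ℝ, 0 < C ∧ ∀ (q : PEdge → unitInterval) (n m K : ℕ), 1 ≤ m →
    K * (3 * m + 1) ≤ n + 1 → ∀ {X : Type} (f : Finset PEdge → X), OfLargest n f →
    ∀ h : X → ℝ, (∀ x, |h x| ≤ 1) →
    |(∫ ω, h (f (opened (edges n) ω)) ∂pl q) - ∫ ω, h (f (opened (edges n) ω)) ∂fair PEdge| ≤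
      2 * (1 / 2) ^ K + C * Real.sqrt ((m : ℝ) ^ (-(5 / 48 : ℝ)) * SB q (edges n)) := by
  obtain ⟨C, hC, htv⟩ := tv_large
  refine ⟨2 * C, by positivity, ?_⟩
  intro q n m K hm1 hK X f hf h hh
  have hS := SB_nonneg q (edges n)
  have hm0 : (0 : ℝ) < m := by exact_mod_cast hm1
  have hgl := gt_large (n := n) (m := 2 * m) (by omega) hf h
  have hg1 : ∀ F, |gt (2 * m) f h F| ≤ 1 := by
    intro F
    unfold gt
    split_ifs
    · exact hh _
    · simp
  have hmm : ((2 * m : ℕ) : ℝ) ^ (-(5 / 48 : ℝ)) ≤ (m : ℝ) ^ (-(5 / 48 : ℝ)) :=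
    Real.rpow_le_rpow_of_nonpos hm0 (by push_cast; linarith) (by norm_num)
  have hs : Real.sqrt (((2 * m : ℕ) : ℝ) ^ (-(5 / 48 : ℝ)) * SB q (edges n)) ≤
      Real.sqrt ((m : ℝ) ^ (-(5 / 48 : ℝ)) * SB q (edges n)) :=
    Real.sqrt_le_sqrt (mul_le_mul_of_nonneg_right hmm hS)
  set T := Real.sqrt ((m : ℝ) ^ (-(5 / 48 : ℝ)) * SB q (edges n)) with hT
  have v1 := (htv q (edges n) (2 * m) (by omega) (gt (2 * m) f h) hgl hg1).trans
    (mul_le_mul_of_nonneg_left hs hC.le)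
  -- no large cluster
  have hcl : OfLargest n (fun _ : Finset PEdge => (0:ℕ)) := fun _ _ _ _ _ _ => rfl
  have hgl2 := gt_large (n := n) (m := 2 * m) (by omega) hcl (fun _ => (1:ℝ))
  have v2 := (htv q (edges n) (2 * m) (by omega) (gt (2 * m) (fun _ => (0:ℕ)) fun _ => (1:ℝ)) hgl2
    (fun F => by unfold gt; split_ifs <;> simp)).trans (mul_le_mul_of_nonneg_left hs hC.le)
  have hD : ∀ P : Measure (PEdge → Bool), IsProbabilityMeasure P →
      P.real {ω | ¬ DD (2 * m) (opened (edges n) ω)} = 1 -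
        ∫ ω, gt (2 * m) (fun _ => (0:ℕ)) (fun _ => (1:ℝ)) (opened (edges n) ω) ∂P := by
    intro P _
    have hm := meas_opened (edges n) (fun F => DD (2 * m) F)
    have e : ∫ ω, gt (2 * m) (fun _ => (0:ℕ)) (fun _ => (1:ℝ)) (opened (edges n) ω) ∂P =
        P.real {ω | DD (2 * m) (opened (edges n) ω)} := by
      have e1 : (fun ω => gt (2 * m) (fun _ => (0:ℕ)) (fun _ => (1:ℝ)) (opened (edges n) ω)) =
          {ω | DD (2 * m) (opened (edges n) ω)}.indicator (fun _ => (1 : ℝ)) := by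
        funext ω
        unfold gt
        by_cases hd : DD (2 * m) (opened (edges n) ω)
        · rw [if_pos hd, Set.indicator_of_mem
            (show ω ∈ {ω | DD (2 * m) (opened (edges n) ω)} from hd)]
        · rw [if_neg hd, Set.indicator_of_notMem
            (show ω ∉ {ω | DD (2 * m) (opened (edges n) ω)} from hd)]
      rw [e1, integral_indicator_const _ hm]
      simp
    rw [e]
    have := probReal_compl_eq_one_sub (μ := P) hm
    exact this
  have d1 := hD (pl q) inferInstance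
  have d2 := hD (fair PEdge) inferInstance
  have d3 : (fair PEdge).real {ω | ¬ DD (2 * m) (opened (edges n) ω)} ≤ (1 / 2) ^ K := by
    rw [fair_prob n fun F => ¬ DD (2 * m) F]
    exact prob_notDD (n := n) (m := m) (K := K) hm1 hK
  have t1 := trunc_le n (2 * m) f hh (pl q)
  have t2 := trunc_le n (2 * m) f hh (fair PEdge)
  rw [abs_le] at v1 v2 t1 t2 ⊢
  constructor <;> linarith

end Pool.Agent.X136.DP
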