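import Pool.Agent.X136.DP.Clu
import Pool.Agent.X136.CQ.Lim3

set_option autoImplicit false

/-!
# The rate, laws and perimeters
-/

namespace Pool.Agent.X136.DP

open Finset Pool.Agent.X136.QC Pool.Agent.X136.QE Pool.Agent.X136.CQ MeasureTheory
open ProbabilityTheory H342P.Plain Filter Topology
open Pool.Agent.X136.CQ.Model (opened OfLargest measurable_opened lawQ)

/-- the error -/
noncomputable def er (q : PEdge → unitInterval) (n : ℕ) : ℝ :=
  (1 + SB q (edges n)) * (Real.log n + 1) * (n : ℝ) ^ (-(5 / 48 : ℝ))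

theorem er_nonneg (q : PEdge → unitInterval) {n : ℕ} (hn : 1 ≤ n) : 0 ≤ er q n := by
  have h1 : (1 : ℝ) ≤ n := by exact_mod_cast hn
  have := SB_nonneg q (edges n)
  have := Real.log_nonneg h1
  unfold er
  positivity

theorem abs_diff_le {X : Type} (n : ℕ) (f : Finset PEdge → X) {h : X → ℝ} (hh : ∀ x, |h x| ≤ 1)
    (q : PEdge → unitInterval) :
    |(∫ ω, h (f (opened (edges n) ω)) ∂pl q) - ∫ ω, h (f (opened (edges n) ω)) ∂fair PEdge| ≤ 2 := by
  have h1 := abs_int_le (edges n) (g := fun F => h (f F)) (fun F => hh _) (pl q)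
  have h2 := abs_int_le (edges n) (g := fun F => h (f F)) (fun F => hh _) (fair PEdge)
  rw [abs_le] at h1 h2 ⊢
  constructor <;> linarith

/-- **The rate.** -/
theorem rate : ∃ C : ℝ, 0 < C ∧ ∀ (q : PEdge → unitInterval) (n : ℕ), 1 ≤ n →
    ∀ {X : Type} (f : Finset PEdge → X), OfLargest n f → ∀ h : X → ℝ, (∀ x, |h x| ≤ 1) →
    |(∫ ω, h (f (opened (edges n) ω)) ∂pl q) - ∫ ω, h (f (opened (edges n) ω)) ∂fair PEdge| ≤
      C * Real.sqrt (er q n) := by
  obtain ⟨C, hC, htv⟩ := tv_largest
  refine ⟨4 + 4 * C, by positivity, ?_⟩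
  intro q n hn X f hf h hh
  have hn1 : (1 : ℝ) ≤ n := by exact_mod_cast hn
  have hn0 : (0 : ℝ) < n := by linarith
  have hS := SB_nonneg q (edges n)
  have hlog := Real.log_nonneg hn1
  set K : ℕ := Nat.log 2 n + 1 with hK
  have hK1 : 1 ≤ K := by omega
  have hKr : (1:ℝ) ≤ K := by exact_mod_cast hK1
  have hK2 : n < 2 ^ K := Nat.lt_pow_succ_log_self (by norm_num) n
  have hKlog : (K : ℝ) ≤ 2 * (Real.log n + 1) := by
    have h1 : 2 ^ (Nat.log 2 n) ≤ n := Nat.pow_log_le_self 2 (by omega)
    have h2 : ((2:ℝ) ^ (Nat.log 2 n)) ≤ n := by exact_mod_cast h1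
    have h3 := Real.log_le_log (by positivity) h2
    rw [Real.log_pow] at h3
    have h4 := Real.log_two_gt_d9
    have h5 : (0:ℝ) ≤ Nat.log 2 n := Nat.cast_nonneg _
    rw [hK]
    push_cast
    nlinarith
  set P : ℝ := (n : ℝ) ^ (-(5 / 48 : ℝ)) with hP
  have hP0 : 0 < P := by positivity
  have her : P * (K / 2) * (1 + SB q (edges n)) ≤ er q n := by
    unfold er
    rw [← hP]
    have : P * (K / 2) ≤ (Real.log n + 1) * P := by nlinarith
    calc P * (K / 2) * (1 + SB q (edges n)) ≤ (Real.log n + 1) * P * (1 + SB q (edges n)) :=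
          mul_le_mul_of_nonneg_right this (by linarith)
      _ = _ := by ring
  by_cases hsm : n < 4 * K
  · -- trivial
    have h1 := abs_diff_le n f hh q
    have h2 : (1/4 : ℝ) ≤ er q n := by
      refine le_trans ?_ her
      have h3 : (n:ℝ) ≤ 4 * K := by exact_mod_cast hsm.le
      have h4 : (4 * (K:ℝ)) ^ (-(5 / 48 : ℝ)) ≤ P :=
        Real.rpow_le_rpow_of_nonpos hn0 h3 (by norm_num)
      have h5 : (4 * (K:ℝ)) ^ (-1 : ℝ) * 2 ≤ (4 * (K:ℝ)) ^ (-(5 / 48 : ℝ)) := by
        have e1 : (4 * (K:ℝ)) ^ (-(5 / 48 : ℝ)) = (4 * (K:ℝ)) ^ (-1 : ℝ) * (4 * (K:ℝ)) ^ (43/48 : ℝ) := by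
          rw [← Real.rpow_add (by positivity)]; norm_num
        rw [e1]
        refine mul_le_mul_of_nonneg_left ?_ (by positivity)
        calc (2:ℝ) = 4 ^ (1/2 : ℝ) := by
              rw [show (4:ℝ) = 2 ^ (2:ℝ) by norm_num, ← Real.rpow_mul (by norm_num)]; norm_num
          _ ≤ 4 ^ (43/48 : ℝ) := Real.rpow_le_rpow_of_exponent_le (by norm_num) (by norm_num)
          _ ≤ (4 * (K:ℝ)) ^ (43/48 : ℝ) := Real.rpow_le_rpow (by norm_num) (by linarith) (by norm_num)
      rw [Real.rpow_neg_one] at h5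
      have h6 : (4 * (K:ℝ))⁻¹ * 2 * (K / 2) = 1/4 := by field_simp
      have h7 : (4 * (K:ℝ))⁻¹ * 2 ≤ P := h5.trans h4
      have h8 : 0 ≤ (K:ℝ)/2 := by positivity
      nlinarith [mul_le_mul_of_nonneg_right h7 h8]
    have h3 : (1/2 : ℝ) ≤ Real.sqrt (er q n) := by
      rw [show (1/2 : ℝ) = Real.sqrt (1/4) by
        rw [show (1/4 : ℝ) = (1/2) ^ 2 by norm_num, Real.sqrt_sq (by norm_num)]]
      exact Real.sqrt_le_sqrt h2
    nlinarith
  · push Not at hsm
    set m : ℕ := n / (4 * K) with hm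
    have h4K : 0 < 4 * K := by omega
    have hm1 : 1 ≤ m := (Nat.one_le_div_iff h4K).2 hsm
    have hmn : m * (4 * K) ≤ n := Nat.div_mul_le_self n (4 * K)
    have hmK : K * (3 * m + 1) ≤ n + 1 := by
      have : K ≤ K * m := Nat.le_mul_of_pos_right K (by omega)
      nlinarith
    have key := htv q n m K hm1 hmK f hf h hh
    have hmlow : (n:ℝ) / (8 * K) ≤ m := by
      have h1 : n < (m + 1) * (4 * K) := by
        have := Nat.lt_succ_self (n / (4 * K))
        rw [← hm] at this
        exact (Nat.div_lt_iff_lt_mul h4K).1 (by rw [← hm]; omega)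
      have h2 : (n:ℝ) < (m + 1) * (4 * K) := by exact_mod_cast h1
      have h3 : (1:ℝ) ≤ m := by exact_mod_cast hm1
      rw [div_le_iff₀ (by positivity)]
      nlinarith
    have hm48 : (m:ℝ) ^ (-(5 / 48 : ℝ)) ≤ 8 * K * P := by
      have h1 : (m:ℝ) ^ (-(5 / 48 : ℝ)) ≤ ((n:ℝ) / (8 * K)) ^ (-(5 / 48 : ℝ)) :=
        Real.rpow_le_rpow_of_nonpos (by positivity) hmlow (by norm_num)
      refine h1.trans ?_
      rw [Real.div_rpow hn0.le (by positivity), div_eq_mul_inv, mul_comm]
      refine mul_le_mul_of_nonneg_right ?_ hP0.le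
      rw [← Real.rpow_neg (by positivity), neg_neg]
      calc (8 * (K:ℝ)) ^ (5 / 48 : ℝ) ≤ (8 * (K:ℝ)) ^ (1 : ℝ) :=
            Real.rpow_le_rpow_of_exponent_le (by linarith) (by norm_num)
        _ = 8 * K := Real.rpow_one _
    have h1 : Real.sqrt ((m : ℝ) ^ (-(5 / 48 : ℝ)) * SB q (edges n)) ≤ 4 * Real.sqrt (er q n) := by
      rw [show 4 * Real.sqrt (er q n) = Real.sqrt (16 * er q n) by
        rw [Real.sqrt_mul (by norm_num), show (16:ℝ) = 4 ^ 2 by norm_num,
          Real.sqrt_sq (by norm_num)]]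
      refine Real.sqrt_le_sqrt ?_
      calc (m : ℝ) ^ (-(5 / 48 : ℝ)) * SB q (edges n) ≤ 8 * K * P * SB q (edges n) :=
            mul_le_mul_of_nonneg_right hm48 hS
        _ ≤ 16 * (P * (K / 2) * (1 + SB q (edges n))) := by
            have : 0 ≤ K * P := by positivity
            nlinarith
        _ ≤ _ := mul_le_mul_of_nonneg_left her (by norm_num)
    have h2 : ((1:ℝ) / 2) ^ K ≤ 2 * Real.sqrt (er q n) := by
      have h3 : ((1:ℝ) / 2) ^ K ≤ 1 / n := by
        rw [one_div_pow]
        exact one_div_le_one_div_of_le hn0 (by exact_mod_cast hK2.le)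
      have h4 : (1:ℝ) / n ≤ P := by
        rw [hP, one_div, ← Real.rpow_neg_one]
        exact Real.rpow_le_rpow_of_exponent_le hn1 (by norm_num)
      have h5 : P ≤ 2 * er q n := by
        have : P * 1 ≤ 2 * (P * (K / 2) * (1 + SB q (edges n))) := by
          have : P * 1 ≤ P * (K * (1 + SB q (edges n))) :=
            mul_le_mul_of_nonneg_left (by nlinarith) hP0.le
          linarith
        linarith
      have h6 : P ≤ 1 := by
        rw [hP]
        exact Real.rpow_le_one_of_one_le_of_nonpos hn1 (by norm_num)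
      have h7 : P ≤ 2 * Real.sqrt (er q n) := by
        have h8 : P ^ 2 ≤ 4 * er q n := by nlinarith
        have h9 := Real.le_sqrt_of_sq_le h8
        rwa [Real.sqrt_mul (by norm_num), show (4:ℝ) = 2 ^ 2 by norm_num,
          Real.sqrt_sq (by norm_num)] at h9
      linarith
    calc _ ≤ 2 * (1 / 2) ^ K + C * Real.sqrt ((m : ℝ) ^ (-(5 / 48 : ℝ)) * SB q (edges n)) := key
      _ ≤ 2 * (2 * Real.sqrt (er q n)) + C * (4 * Real.sqrt (er q n)) :=
          add_le_add (mul_le_mul_of_nonneg_left h2 (by norm_num)) (mul_le_mul_of_nonneg_left h1 hC.le)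
      _ = _ := by ring

theorem er_sqrt_zero {q : ℕ → PEdge → unitInterval} {k : ℕ → ℕ}
    (h : Tendsto (fun i => er (q i) (k i)) atTop (𝓝 0)) :
    Tendsto (fun i => Real.sqrt (er (q i) (k i))) atTop (𝓝 0) := by
  have := (Real.continuous_sqrt.tendsto 0).comp h
  rwa [Real.sqrt_zero] at this

/-- **Laws.** -/
theorem law_iff {q : ℕ → PEdge → unitInterval} {k : ℕ → ℕ} (hk : ∀ i, 1 ≤ k i)
    (her : Tendsto (fun i => er (q i) (k i)) atTop (𝓝 0)) {X : Type} [TopologicalSpace X]
    [MeasurableSpace X] [OpensMeasurableSpace X] {f : ℕ → Finset PEdge → X}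
    (hf : ∀ i, OfLargest (k i) (f i)) (μ : ProbabilityMeasure X) :
    Tendsto (fun i => lawQ (q i) (k i) (f i)) atTop (𝓝 μ) ↔
      Tendsto (fun i => H342L.lawOf (k i) (f i)) atTop (𝓝 μ) := by
  obtain ⟨C, hC, hr⟩ := rate
  rw [ProbabilityMeasure.tendsto_iff_forall_integral_tendsto,
    ProbabilityMeasure.tendsto_iff_forall_integral_tendsto]
  have key : ∀ h : BoundedContinuousFunction X ℝ, Tendsto (fun i =>
      ∫ x, h x ∂(lawQ (q i) (k i) (f i) : Measure X) -
        ∫ x, h x ∂(H342L.lawOf (k i) (f i) : Measure X)) atTop (𝓝 0) := by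
    intro h
    set B : ℝ := ‖h‖ + 1 with hB
    have hB0 : 0 < B := by positivity
    have hbd : ∀ x, |h x / B| ≤ 1 := by
      intro x
      rw [abs_div, abs_of_pos hB0, div_le_one hB0]
      have := h.norm_coe_le_norm x
      rw [Real.norm_eq_abs] at this
      linarith
    have hlim := (er_sqrt_zero her).const_mul (B * C)
    rw [mul_zero] at hlim
    refine squeeze_zero_norm (fun i => ?_) hlim
    have h1 := hr (q i) (k i) (hk i) (f i) (hf i) (fun x => h x / B) hbd
    rw [integral_div, integral_div, ← sub_div, abs_div, abs_of_pos hB0, div_le_iff₀ hB0] at h1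
    rw [int_lawQ (q i) (k i) (f i) h.continuous.measurable,
      int_lawOf (k i) (f i) h.continuous.measurable, Real.norm_eq_abs]
    linarith
  constructor
  · intro hc h
    have := (hc h).sub (key h)
    simpa using this
  · intro hc h
    have := (hc h).add (key h)
    simpa using this

theorem perimeter_congr {F F' : Finset PEdge} {v : ℤ × ℤ} (h : clusterEdges F v = clusterEdges F' v) :
    perimeter F v = perimeter F' v ∧ perimeterEdges F v = perimeterEdges F' v := by
  classical
  have hO : ∀ f, Outer F v f ↔ Outer F' v f := by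
    intro f
    unfold Outer
    rw [h]
  have hfilt : F.filter (fun e => e ∈ clusterEdges F v) = F'.filter (fun e => e ∈ clusterEdges F' v) := by
    ext e
    rw [mem_filter, mem_filter]
    constructor
    · rintro ⟨-, h2⟩
      rw [h] at h2
      exact ⟨h2.1, h2⟩
    · rintro ⟨-, h2⟩
      rw [← h] at h2
      exact ⟨h2.1, h2⟩
  constructor
  · unfold perimeter
    rw [← sum_filter, ← sum_filter]
    have e1 : (F.filter (fun e => e ∈ clusterEdges F v)) =
        (F'.filter (fun e => e ∈ clusterEdges F' v)) := hfilt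
    rw [e1]
    refine sum_congr rfl fun e _ => ?_
    simp only [hO]
  · unfold perimeterEdges
    congr 1
    ext e
    rw [mem_filter, mem_filter]
    have := Finset.ext_iff.1 hfilt e
    rw [mem_filter, mem_filter] at this
    constructor
    · rintro ⟨h1, h2, h3⟩
      exact ⟨(this.1 ⟨h1, h2⟩).1, (this.1 ⟨h1, h2⟩).2, by rw [← hO, ← hO]; exact h3⟩
    · rintro ⟨h1, h2, h3⟩
      exact ⟨(this.2 ⟨h1, h2⟩).1, (this.2 ⟨h1, h2⟩).2, by rw [hO, hO]; exact h3⟩

open Classical in
/-- **Events determined by the perimeter.** -/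
theorem perim_prob : ∃ C : ℝ, 0 < C ∧ ∀ (q : PEdge → unitInterval) (n : ℕ), 1 ≤ n →
    ∀ A : ℕ → ℕ → Prop,
    |(pl q).real {ω | ∀ v, Largest n (opened (edges n) ω) v →
        A (perimeterEdges (opened (edges n) ω) v) (perimeter (opened (edges n) ω) v)} -
      prob n (fun F => ∀ v, Largest n F v → A (perimeterEdges F v) (perimeter F v))| ≤
      C * Real.sqrt (er q n) := by
  obtain ⟨C, hC, hr⟩ := rate
  refine ⟨C, hC, ?_⟩
  intro q n hn A
  set f : Finset PEdge → Bool := fun F => decide (∀ v, Largest n F v →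
    A (perimeterEdges F v) (perimeter F v)) with hf
  have hfl : OfLargest n f := by
    intro F F' _ _ h1 h2
    rw [hf]
    simp only [decide_eq_decide]
    constructor
    · intro h v hv
      have hv' := (h1 v).2 hv
      obtain ⟨p1, p2⟩ := perimeter_congr (h2 v hv')
      rw [← p1, ← p2]
      exact h v hv'
    · intro h v hv
      obtain ⟨p1, p2⟩ := perimeter_congr (h2 v hv)
      rw [p1, p2]
      exact h v ((h1 v).1 hv)
  have h1 := hr q n hn f hfl (fun b => if b = true then 1 else 0) (fun b => by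
    cases b <;> simp)
  have e : ∀ P : Measure (PEdge → Bool), IsProbabilityMeasure P →
      ∫ ω, (if f (opened (edges n) ω) = true then (1:ℝ) else 0) ∂P =
      P.real {ω | ∀ v, Largest n (opened (edges n) ω) v →
        A (perimeterEdges (opened (edges n) ω) v) (perimeter (opened (edges n) ω) v)} := by
    intro P _
    have hm := meas_opened (edges n) (fun F => ∀ v, Largest n F v →
      A (perimeterEdges F v) (perimeter F v))
    rw [show P.real {ω | ∀ v, Largest n (opened (edges n) ω) v →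
        A (perimeterEdges (opened (edges n) ω) v) (perimeter (opened (edges n) ω) v)} =
      ∫ ω, {ω | ∀ v, Largest n (opened (edges n) ω) v →
        A (perimeterEdges (opened (edges n) ω) v)
          (perimeter (opened (edges n) ω) v)}.indicator (fun _ => (1 : ℝ)) ω ∂P by
        rw [integral_indicator_const _ hm]; simp]
    refine integral_congr_ae (Eventually.of_forall fun ω => ?_)
    show (if f (opened (edges n) ω) = true then (1:ℝ) else 0) = _
    rw [Set.indicator_apply]
    congr 1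
    rw [hf]
    simp only [decide_eq_true_eq, Set.mem_ofPred_eq]
  rw [e (pl q) inferInstance, e (fair PEdge) inferInstance,
    fair_prob n (fun F => ∀ v, Largest n F v → A (perimeterEdges F v) (perimeter F v))] at h1
  exact h1

end Pool.Agent.X136.DP
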