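import Pool.Agent.X136.QE.Model

set_option autoImplicit false

/-!
# The exploration path of the half-plane for arbitrary parameters of the edges: definitions

`Conf`, `opn`, `step`, `path`, `curve`, `perc`, `lawH` are those of `Pool.Agent.H984R4.HN.HPDefs` and
`Pool.Agent.H984R4.HN.FinalH`; `law q` (the edge `e` is open with probability `q e`, independently)
and `lawQ` are those of `Pool.Agent.X136.QE.Model`.
-/

namespace Pool.Agent.X136.DP.PModel

open H974 H984P H984H MeasureTheory

/-- The edge which is examined by `step` in the state `σ` (the edge which `step` asks for). -/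
def examined (σ : St) : Edg := match σ.2 with
  | .ne => (σ.1.1, σ.1.2, false)
  | .nw => (σ.1.1 - 1, σ.1.2, true)
  | .sw => (σ.1.1, σ.1.2 - 1, false)
  | .se => (σ.1.1, σ.1.2, true)

/-- The edges of `ℤ × ℕ` which are not on the real axis. -/
def Random (e : Edg) : Prop := 0 ≤ e.2.1 ∧ ¬ (e.2.1 = 0 ∧ e.2.2 = true)

/-- The probability, at `p = 1 / 2`, that the edge `e` is not on the real axis and is examined in one
of the first `n` steps of the exploration path. -/
noncomputable def seenBy (n : ℕ) (e : Edg) : ℝ :=
  perc.real {ω | Random e ∧ ∃ k < n, examined (path ω k) = e}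

/-- The probability, at `p = 1 / 2`, that the edge `e` is not on the real axis and is ever examined by
the exploration path. -/
noncomputable def seen (e : Edg) : ℝ := perc.real {ω | Random e ∧ ∃ k, examined (path ω k) = e}

end Pool.Agent.X136.DP.PModel
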