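import Pool.Agent.X136.QE.Prob
import Pool.Agent.X136.QE.Mix

set_option autoImplicit false

/-!
# Visits of the two boundary halves, and changes near the origin
-/

namespace Pool.Agent.X136.DP

open H974 Finset H342P H984P H984H
open Pool.Agent.X136.QE (Fr FO FC opn_fr mem_FC xe step_xe opn_congr fr_faces far_unbounded
  low_const dreach_const back_cases path_ne_se iter_reach iter_dreach axis_reach NI)

/-- one step: the vertex -/
theorem step_vtx (G : Set Edg) (σ : St) : (step G σ).1 = σ.1 ∨ Adj G σ.1 (step G σ).1 := by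
  classical
  obtain ⟨⟨x, y⟩, q⟩ := σ
  cases q
  · simp only [step]
    split_ifs with h
    · exact Or.inr ⟨_, h, Or.inl ⟨rfl, rfl⟩⟩
    · exact Or.inl rfl
  · simp only [step]
    split_ifs with h
    · refine Or.inr ⟨_, h, Or.inr ⟨rfl, ?_⟩⟩
      rw [tgt_true]
      simp
    · exact Or.inl rfl
  · simp only [step]
    split_ifs with h
    · refine Or.inr ⟨_, h, Or.inr ⟨rfl, ?_⟩⟩
      rw [tgt_false]
      simp
    · exact Or.inl rfl
  · simp only [step]
    split_ifs with h
    · exact Or.inr ⟨_, h, Or.inl ⟨rfl, rfl⟩⟩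
    · exact Or.inl rfl

/-- one step: the face -/
theorem step_face (G : Set Edg) (σ : St) :
    face (step G σ) = face σ ∨ DAdj Gᶜ (face σ) (face (step G σ)) := by
  classical
  obtain ⟨⟨x, y⟩, q⟩ := σ
  cases q
  · by_cases h : ((x, y, false) : Edg) ∈ G
    · have h1 : step G ((x, y), .ne) = ((x, y + 1), .se) := by simp [step, h]
      rw [h1, face_ne, face_se, add_sub_cancel_right]
      exact Or.inl rfl
    · have h1 : step G ((x, y), .ne) = ((x, y), .nw) := by simp [step, h]
      rw [h1, face_ne, face_nw]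
      exact Or.inr ⟨_, h, Or.inr ⟨rfl, rfl⟩⟩
  · by_cases h : ((x - 1, y, true) : Edg) ∈ G
    · have h1 : step G ((x, y), .nw) = ((x - 1, y), .ne) := by simp [step, h]
      rw [h1, face_ne, face_nw]
      exact Or.inl rfl
    · have h1 : step G ((x, y), .nw) = ((x, y), .sw) := by simp [step, h]
      rw [h1, face_nw, face_sw]
      exact Or.inr ⟨_, h, Or.inr ⟨rfl, rfl⟩⟩
  · by_cases h : ((x, y - 1, false) : Edg) ∈ G
    · have h1 : step G ((x, y), .sw) = ((x, y - 1), .nw) := by simp [step, h]
      rw [h1, face_sw, face_nw]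
      exact Or.inl rfl
    · have h1 : step G ((x, y), .sw) = ((x, y), .se) := by simp [step, h]
      rw [h1, face_sw, face_se]
      exact Or.inr ⟨_, h, Or.inl ⟨rfl, rfl⟩⟩
  · by_cases h : ((x, y, true) : Edg) ∈ G
    · have h1 : step G ((x, y), .se) = ((x + 1, y), .sw) := by simp [step, h]
      rw [h1, face_se, face_sw, add_sub_cancel_right]
      exact Or.inl rfl
    · have h1 : step G ((x, y), .se) = ((x, y), .ne) := by simp [step, h]
      rw [h1, face_se, face_ne]
      exact Or.inr ⟨_, h, Or.inl ⟨rfl, rfl⟩⟩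

/-- the vertex of the state is on the left boundary -/
def LB (σ : St) : Prop := σ.1.2 = 0 ∧ σ.1.1 ≤ 0

/-- the face of the state is on or below the right boundary -/
def RB (σ : St) : Prop := (face σ).2 ≤ -1 ∨ ((face σ).2 = 0 ∧ 0 ≤ (face σ).1)

/-- the path visits the two boundary halves between the times `s` and `K` -/
def Tch (s K : ℕ) (p : ℕ → St) : Prop :=
  (∃ k, s ≤ k ∧ k ≤ K ∧ LB (p k)) ∧ ∃ k, s ≤ k ∧ k ≤ K ∧ RB (p k)

theorem Tch_mono {s K K' : ℕ} (h : K ≤ K') {p : ℕ → St} (hT : Tch s K p) : Tch s K' p := by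
  obtain ⟨⟨k, h1, h2, h3⟩, ⟨k', h1', h2', h3'⟩⟩ := hT
  exact ⟨⟨k, h1, h2.trans h, h3⟩, ⟨k', h1', h2'.trans h, h3'⟩⟩

theorem left_free {ω : Conf} {s : ℕ} (h : ∀ k, s ≤ k → ¬ LB (path ω k)) (k : ℕ) :
    Reach (FO ω) (path ω s).1 (path ω (s + k)).1 := by
  induction k with
  | zero => exact Reach.refl _ _
  | succ k ih =>
    rw [← add_assoc, path_succ]
    rcases step_vtx (opn ω) (path ω (s + k)) with h1 | ⟨e, he, hc⟩
    · rw [h1]; exact ih
    · by_cases hf : Fr e
      · exact ih.trans (Adj.reach ⟨e, ⟨hf, (opn_fr hf).1 he⟩, hc⟩)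
      · exfalso
        rcases he with ⟨h1, h2, h3⟩ | ⟨h1, h2, -⟩
        · obtain ⟨x, y, t⟩ := e
          simp only at h1 h2 h3
          subst h1 h2
          apply h (s + k) (by omega)
          rw [src_mk, tgt_true] at hc
          rcases hc with ⟨h4, -⟩ | ⟨-, h4⟩
          · unfold LB
            rw [← h4]
            exact ⟨rfl, by simp only; omega⟩
          · unfold LB
            rw [← h4]
            exact ⟨rfl, by simp only; omega⟩
        · exact hf ⟨h1, h2⟩

theorem right_free {ω : Conf} {s : ℕ} (h : ∀ k, s ≤ k → ¬ RB (path ω k)) (k : ℕ) :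
    DReach (FC ω) (face (path ω s)) (face (path ω (s + k))) := by
  induction k with
  | zero => exact DReach.refl _ _
  | succ k ih =>
    have hk := h (s + k + 1) (by omega)
    have hk0 := h (s + k) (by omega)
    rw [← add_assoc, path_succ]
    rw [path_succ] at hk
    rcases step_face (opn ω) (path ω (s + k)) with h1 | ⟨e, he, hc⟩
    · rw [h1]; exact ih
    · by_cases hf : Fr e
      · exact ih.trans (DAdj.reach ⟨e, mem_FC hf he, hc⟩)
      · exfalso
        unfold RB at hk hk0
        obtain ⟨a, b, t⟩ := e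
        have h3 : ¬ (0 ≤ b ∧ ¬ (b = 0 ∧ t = true)) := hf
        have h4 : ¬ ((b = 0 ∧ t = true ∧ a < 0) ∨ (0 ≤ b ∧ ¬ (b = 0 ∧ t = true) ∧
          ω (a, b, t) = true)) := he
        cases t
        · simp only [Bool.false_eq_true, and_false, not_false_eq_true, and_true, not_le] at h3
          rw [dsrc_false, dtgt_mk] at hc
          rcases hc with ⟨h5, -⟩ | ⟨-, h5⟩
          · rw [← h5] at hk0
            simp only at hk0
            omega
          · rw [← h5] at hk0
            simp only at hk0
            omega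
        · rw [dsrc_true, dtgt_mk] at hc
          simp only [and_true] at h3
          have h5 : b = 0 ∨ b < 0 := by omega
          have h6 : ¬ (b = 0 ∧ a < 0) := fun h => h4 (Or.inl ⟨h.1, rfl, h.2⟩)
          rcases hc with ⟨h7, -⟩ | ⟨h7, -⟩
          · rw [← h7] at hk0
            simp only at hk0
            omega
          · rw [← h7] at hk
            simp only at hk
            omega

/-- recurrence -/
theorem touch_of_ni {ω : Conf} (h : NI ω) (s : ℕ) : ∃ K, Tch s K (path ω) := by
  have h1 : ∃ k, s ≤ k ∧ LB (path ω k) := by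
    by_contra hcon
    push Not at hcon
    obtain ⟨R, hR⟩ := h.1 (path ω s).1
    obtain ⟨k, hk⟩ := far_unbounded ω s R
    exact absurd (hR _ (left_free hcon k)) (not_lt.2 hk)
  have h2 : ∃ k, s ≤ k ∧ RB (path ω k) := by
    by_contra hcon
    push Not at hcon
    obtain ⟨R, hR⟩ := h.2 (face (path ω s))
    obtain ⟨k, hk⟩ := far_unbounded ω s (R + 2)
    have h3 := hR _ (right_free hcon k)
    have a1 := arms_face (path ω s)
    have a2 := arms_face (path ω (s + k))
    unfold sd at h3 hk
    rw [max_lt_iff, abs_lt, abs_lt] at h3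
    rw [le_max_iff, le_abs, le_abs] at hk
    omega
  obtain ⟨k, a1, a2⟩ := h1
  obtain ⟨k', b1, b2⟩ := h2
  exact ⟨max k k', ⟨k, a1, le_max_left _ _, a2⟩, ⟨k', b1, le_max_right _ _, b2⟩⟩

theorem rb_const {ω : Conf} {hf : Vtx → ZMod 2}
    (hE : ∀ e, e ∉ opn ω → hf (dsrc e) = hf (dtgt e)) {σ : St} (h : RB σ) :
    hf (face σ) = hf (0, 0) := by
  rcases h with h | ⟨h1, h2⟩
  · exact low_const hE _ _ h
  · have h3 : (((face σ).1, 0, true) : Edg) ∉ opn ω := by
      rintro (⟨-, -, h⟩ | ⟨-, h, -⟩)
      · simp only at h; omega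
      · exact h ⟨rfl, rfl⟩
    have h4 := hE _ h3
    rw [dsrc_true, dtgt_mk, low_const hE _ _ (by omega)] at h4
    have h5 : face σ = ((face σ).1, 0) := Prod.ext rfl h1
    rw [h5, ← h4]

/-- **If two configurations agree at the edges examined by the first path after time `s`, and the
first path visits the two boundary halves after time `s`, then the two paths agree from some times
on.** -/
theorem couple3 {ω ω' : Conf} {s K : ℕ}
    (hfar : ∀ k, s ≤ k → Fr (xe (path ω k)) → ω (xe (path ω k)) = ω' (xe (path ω k)))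
    (hT : Tch s K (path ω)) :
    ∃ s', ∀ k, path ω' (s' + k) = path ω (s + k) := by
  have h1 : ∀ k, (step (opn ω'))^[k] (path ω s) = path ω (s + k) := by
    intro k
    induction k with
    | zero => rfl
    | succ k ih =>
      rw [Function.iterate_succ_apply', ih, ← add_assoc, path_succ]
      apply step_xe
      refine opn_congr fun hf => ?_
      exact (hfar _ (by omega) hf).symm
  have key : ∃ s', path ω' s' = path ω s := by
    set A : Set St := {τ | (∃ k, path ω' k = τ) ∨ ∃ k, (nxt (opn ω'))^[k] ((0, 0), .ne) = τ}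
      with hA
    have hinv : ∀ σ, σ ∈ A ↔ nxt (opn ω') σ ∈ A := by
      intro σ
      constructor
      · rintro (⟨k, rfl⟩ | ⟨k, rfl⟩)
        · cases k with
          | zero => exact Or.inr ⟨1, rfl⟩
          | succ k =>
            left
            refine ⟨k, ?_⟩
            rw [path_succ, nxt_step]
        · right
          exact ⟨k + 1, Function.iterate_succ_apply' _ _ _⟩
      · rintro (⟨k, hk⟩ | ⟨k, hk⟩)
        · left
          refine ⟨k + 1, ?_⟩
          rw [path_succ, hk, step_nxt]
        · cases k with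
          | zero =>
            left
            refine ⟨1, ?_⟩
            have : path ω' 0 = nxt (opn ω') σ := hk
            rw [path_succ, this, step_nxt]
          | succ k =>
            right
            rw [Function.iterate_succ_apply'] at hk
            exact ⟨k, (nxt_bij _).1 hk⟩
    obtain ⟨hv, hf, hpot, hC, hE⟩ := pot_of_inv (opn ω') A hinv
    have hst : (((0, 0), .ne) : St) ∈ A := Or.inl ⟨0, rfl⟩
    have e0 := hpot ((0, 0), .ne)
    rw [b2_of hst] at e0
    have e1 : hv (path ω s).1 = hv (0, 0) := by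
      obtain ⟨k, hk1, -, hk2, hk3⟩ := hT.1
      have h2 := iter_reach (opn ω') (path ω s) (k - s)
      rw [h1, show s + (k - s) = k by omega] at h2
      obtain ⟨m, hm⟩ := Int.eq_ofNat_of_zero_le (show 0 ≤ -(path ω k).1.1 by omega)
      have h4 := axis_reach ω' m
      have h5 : (path ω k).1 = (-(m : ℤ), 0) := Prod.ext (by simp only; omega) hk2
      rw [h5] at h2
      have h6 : Reach (opn ω') (path ω s).1 (0, 0) := h2.trans h4.symm
      have hreach : ∀ u w, Reach (opn ω') u w → hv u = hv w := by
        intro u w h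
        induction h with
        | refl => rfl
        | tail _ hs ih =>
          obtain ⟨e, he, h | h⟩ := hs
          · rw [ih, ← h.1, ← h.2]; exact hC e he
          · rw [ih, ← h.1, ← h.2]; exact (hC e he).symm
      exact hreach _ _ h6
    have e2 : hf (face (path ω s)) = hf (0, 0) := by
      obtain ⟨k, hk1, -, hk2⟩ := hT.2
      have h2 := iter_dreach (opn ω') (path ω s) (k - s)
      rw [h1, show s + (k - s) = k by omega] at h2
      rw [dreach_const hE h2]
      exact rb_const hE hk2
    have e3 := hpot (path ω s)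
    rw [e1, e2] at e3
    have e4 : face (((0, 0), .ne) : St) = (0, 0) := rfl
    rw [e4] at e0
    simp only at e0
    have hmem : path ω s ∈ A := by
      by_contra hcon
      rw [b2_not_of hcon, e0] at e3
      exact absurd e3 (by decide)
    rcases hmem with ⟨k, hk⟩ | ⟨k, hk⟩
    · exact ⟨k, hk⟩
    · rcases back_cases ω' k with h | h | h
      · exact ⟨0, by rw [← hk, h]; rfl⟩
      · exact absurd (hk.symm.trans h) (path_ne_se ω s)
      · rw [hk] at h
        exact absurd h (Ret_not_bad ω s)
  obtain ⟨s', hs'⟩ := key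
  refine ⟨s', fun k => ?_⟩
  rw [← h1 k, ← hs']
  clear hs'
  induction k with
  | zero => rfl
  | succ k ih =>
    rw [Function.iterate_succ_apply', ← ih, ← add_assoc, path_succ]

end Pool.Agent.X136.DP
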