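import Pool.Agent.X136.DP.PathTv
import Pool.Agent.X136.DP.Touch
import Pool.Agent.X136.QE.Lim

set_option autoImplicit false

/-!
# The scaling limit of the exploration path when the parameters of the edges are changed
-/

namespace Pool.Agent.X136.DP

open H974 Finset H342P H984P H984H MeasureTheory ProbabilityTheory Filter Topology
open Pool.Agent.X136.QC (pl fair Stop)
open Pool.Agent.X136.QE (Dep BW Ex perc_eq_fair measurable_path Fr xe mixc mixc_mem mixc_not
  measurable_mixc map_mixc half fair_eq Late not_late LipP late_prob NI noinf meas_late gam_dist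
  cv lawQ lawQ_int lawH_int' lipP_curve exists_family)

/-- the parameters, made fair in the box of radius `r` -/
noncomputable def qr (q : Edg → unitInterval) (r : ℕ) : Edg → unitInterval :=
  mixc (QE.BB r) q fun _ => half

theorem qr_in {q : Edg → unitInterval} {r : ℕ} {e : Edg} (h : e ∈ QE.BB r) :
    (2 * (qr q r e : ℝ) - 1) ^ 2 = 0 := by
  unfold qr
  rw [mixc_mem h]
  simp [half]

theorem qr_out {q : Edg → unitInterval} {r : ℕ} {e : Edg} (h : e ∉ QE.BB r) :
    qr q r e = q e := by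
  unfold qr
  rw [mixc_not h]

theorem qr_le (q : Edg → unitInterval) (r : ℕ) (e : Edg) :
    (2 * (qr q r e : ℝ) - 1) ^ 2 * vis e ≤ (2 * (q e : ℝ) - 1) ^ 2 * vis e := by
  by_cases h : e ∈ QE.BB r
  · rw [qr_in h, zero_mul]
    exact mul_nonneg (sq_nonneg _) (vis_nonneg e)
  · rw [qr_out h]

theorem qr_nonneg (q : Edg → unitInterval) (r : ℕ) (e : Edg) :
    0 ≤ (2 * (qr q r e : ℝ) - 1) ^ 2 * vis e := mul_nonneg (sq_nonneg _) (vis_nonneg e)

theorem qr_summable {q : Edg → unitInterval}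
    (h : Summable fun e => (2 * (q e : ℝ) - 1) ^ 2 * vis e) (r : ℕ) :
    Summable fun e => (2 * (qr q r e : ℝ) - 1) ^ 2 * vis e :=
  Summable.of_nonneg_of_le (qr_nonneg q r) (qr_le q r) h

theorem mem_BB_eventually (e : Edg) : ∀ᶠ r in atTop, e ∈ QE.BB r := by
  filter_upwards [eventually_ge_atTop ((|e.1| + |e.2.1| + 1).toNat)] with r hr
  have h1 := abs_nonneg e.1
  have h2 := abs_nonneg e.2.1
  have h3 := le_abs_self e.2.1
  show |e.1| < r ∧ e.2.1 < r
  omega

theorem qr_tendsto {q : Edg → unitInterval}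
    (h : Summable fun e => (2 * (q e : ℝ) - 1) ^ 2 * vis e) :
    Tendsto (fun r => ∑' e, (2 * (qr q r e : ℝ) - 1) ^ 2 * vis e) atTop (𝓝 0) := by
  have h0 : ∑' _ : Edg, (0 : ℝ) = 0 := tsum_zero
  rw [← h0]
  refine tendsto_tsum_of_dominated_convergence h (fun e => ?_) (Eventually.of_forall fun r e => ?_)
  · refine tendsto_const_nhds.congr' ?_
    filter_upwards [mem_BB_eventually e] with r hr
    rw [qr_in hr, zero_mul]
  · rw [Real.norm_eq_abs, abs_of_nonneg (qr_nonneg q r e)]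
    exact qr_le q r e

/-- `V` large, the probability of a late visit -/
theorem late_tv {q : Edg → unitInterval} {V : ℝ} (hV : VB q V) (r m : ℕ) :
    (pl q).real {ω | Late r m ω} ≤ perc.real {ω | Late r m ω} + 14 * Real.sqrt V := by
  have h1 := ev_union hV (Q := fun n p => ∃ l, l ≤ n ∧ m ≤ l ∧ sd (p l).1 (0, 0) ≤ r)
    (fun n p p' hp => by
      constructor
      · rintro ⟨l, h1, h2, h3⟩
        exact ⟨l, h1, h2, by rw [← hp l h1]; exact h3⟩
      · rintro ⟨l, h1, h2, h3⟩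
        exact ⟨l, h1, h2, by rw [hp l h1]; exact h3⟩)
    (fun n p ⟨l, h1, h2, h3⟩ => ⟨l, by omega, h2, h3⟩)
  have h2 : {ω : Conf | ∃ n, ∃ l, l ≤ n ∧ m ≤ l ∧ sd (path ω l).1 (0, 0) ≤ r} =
      {ω | Late r m ω} := by
    ext ω
    constructor
    · rintro ⟨n, l, -, h2, h3⟩
      exact ⟨l, h2, h3⟩
    · rintro ⟨l, h2, h3⟩
      exact ⟨l, l, le_rfl, h2, h3⟩
  rw [h2] at h1
  linarith [(abs_le.1 h1).2]

theorem depE_tch (s n : ℕ) : DepE n (Tch s n) := by
  have key : ∀ p p' : ℕ → St, (∀ k ≤ n, p k = p' k) → Tch s n p → Tch s n p' := by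
    rintro p p' hp ⟨⟨k, h1, h2, h3⟩, ⟨k', h1', h2', h3'⟩⟩
    exact ⟨⟨k, h1, h2, by rw [← hp k h2]; exact h3⟩, ⟨k', h1', h2', by rw [← hp k' h2']; exact h3'⟩⟩
  exact fun p p' hp => ⟨key p p' hp, key p' p fun k hk => (hp k hk).symm⟩

theorem touch_tv {q : Edg → unitInterval} {V : ℝ} (hV : VB q V) (s : ℕ) :
    1 - 14 * Real.sqrt V ≤ (pl q).real {ω | ∃ K, Tch s K (path ω)} := by
  have h1 := ev_union hV (Q := fun n p => Tch s n p) (fun n => depE_tch s n)
    (fun n p h => Tch_mono (by omega) h)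
  have h2 : perc.real {ω : Conf | ∃ K, Tch s K (path ω)} = 1 := by
    have h3 : perc.real {ω : Conf | ∃ K, Tch s K (path ω)} = perc.real (Set.univ : Set Conf) := by
      refine measureReal_congr ?_
      filter_upwards [noinf] with ω hω
      have h4 : ∃ K, Tch s K (path ω) := touch_of_ni hω s
      exact propext ⟨fun _ => trivial, fun _ => h4⟩
    rw [h3, probReal_univ]
  rw [h2] at h1
  linarith [(abs_le.1 h1).1]

/-- the two paths agree from some times on, the second one from time at most `S` -/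
def AS (r s S : ℕ) : Set (Conf × Conf) :=
  {z | ∃ s' ≤ S, ∀ k, path z.1 (s' + k) = path (mixc (QE.BB r) z.1 z.2) (s + k)}

theorem AS_mono (r s : ℕ) {S S' : ℕ} (h : S ≤ S') : AS r s S ⊆ AS r s S' := by
  rintro z ⟨s', h1, h2⟩
  exact ⟨s', h1.trans h, h2⟩

theorem meas_eq (r a b : ℕ) :
    MeasurableSet {z : Conf × Conf | path z.1 a = path (mixc (QE.BB r) z.1 z.2) b} := by
  have h1 : {z : Conf × Conf | path z.1 a = path (mixc (QE.BB r) z.1 z.2) b} =
      ⋃ τ : St, {z : Conf × Conf | path z.1 a = τ} ∩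
        {z : Conf × Conf | path (mixc (QE.BB r) z.1 z.2) b = τ} := by
    ext z
    simp only [Set.mem_iUnion, Set.mem_inter_iff, Set.mem_ofPred_eq]
    constructor
    · intro h
      exact ⟨_, h, rfl⟩
    · rintro ⟨τ, h1, h2⟩
      rw [h1, h2]
  rw [h1]
  refine MeasurableSet.iUnion fun τ => ?_
  exact ((Perc_meas_path a τ).preimage measurable_fst).inter
    ((Perc_meas_path b τ).preimage (measurable_mixc _))

theorem meas_AS (r s S : ℕ) : MeasurableSet (AS r s S) := by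
  have h1 : AS r s S = ⋃ s' ∈ {s' : ℕ | s' ≤ S}, ⋂ k : ℕ,
      {z : Conf × Conf | path z.1 (s' + k) = path (mixc (QE.BB r) z.1 z.2) (s + k)} := by
    ext z
    simp only [AS, Set.mem_iUnion, exists_prop, Set.mem_ofPred_eq, Set.mem_iInter]
  rw [h1]
  exact MeasurableSet.biUnion (Set.to_countable _) fun s' _ =>
    MeasurableSet.iInter fun k => meas_eq r _ _

theorem AS_dist {r s S : ℕ} {z : Conf × Conf} (h : z ∈ AS r s S) (j : ℕ) :
    dist (gam z.1 j) (gam (mixc (QE.BB r) z.1 z.2) j) ≤ (s : ℝ) + S := by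
  obtain ⟨s', h1, h2⟩ := h
  have hs0 : (0 : ℝ) ≤ s := Nat.cast_nonneg s
  have hS0 : (0 : ℝ) ≤ S := Nat.cast_nonneg S
  have hs' : (s' : ℝ) ≤ S := by exact_mod_cast h1
  have hs'0 : (0 : ℝ) ≤ s' := Nat.cast_nonneg s'
  set ω' := mixc (QE.BB r) z.1 z.2
  rcases le_or_gt s j with h | h
  · have e1 : gam ω' j = gam z.1 (s' + (j - s)) := by
      unfold gam
      rw [h2 (j - s), show s + (j - s) = j by omega]
    rw [e1]
    have e2 : ((s' + (j - s) : ℕ) : ℝ) = s' + j - s := by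
      rw [Nat.cast_add, Nat.cast_sub h]; ring
    rcases le_total s s' with h5 | h5
    · refine (gam_dist z.1 (show j ≤ s' + (j - s) by omega)).trans ?_
      rw [e2]
      linarith
    · rw [dist_comm]
      refine (gam_dist z.1 (show s' + (j - s) ≤ j by omega)).trans ?_
      rw [e2]
      linarith
  · have e0 : gam z.1 0 = gam ω' 0 := rfl
    have e1 := gam_dist z.1 (Nat.zero_le j)
    have e2 := gam_dist ω' (Nat.zero_le j)
    have e3 := dist_triangle (gam z.1 j) (gam z.1 0) (gam ω' j)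
    rw [dist_comm] at e1
    nth_rewrite 2 [e0] at e3
    have : (j : ℝ) ≤ s := by exact_mod_cast h.le
    simp only [Nat.cast_zero, sub_zero] at e1 e2
    linarith

/-- the good event of the second path -/
def GG (r s : ℕ) : Set Conf := {ω | (∃ K, Tch s K (path ω)) ∧ ¬ Late r s ω}

theorem GG_sub (r s : ℕ) {z : Conf × Conf} (h : mixc (QE.BB r) z.1 z.2 ∈ GG r s) :
    ∃ S, z ∈ AS r s S := by
  obtain ⟨⟨K, hK⟩, hL⟩ := h
  obtain ⟨s', hs'⟩ := couple3 (ω := mixc (QE.BB r) z.1 z.2) (ω' := z.1) (s := s)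
    (fun k hk _ => mixc_not (not_late hL hk)) hK
  exact ⟨s', s', le_rfl, hs'⟩

theorem meas_GG (r s : ℕ) : MeasurableSet (GG r s) := by
  have h1 : GG r s = (⋃ K, {ω : Conf | Tch s K (path ω)}) ∩ {ω : Conf | Late r s ω}ᶜ := by
    ext ω
    simp [GG]
  rw [h1]
  exact (MeasurableSet.iUnion fun K => depE_meas (depE_tch s K)).inter (meas_late r s).compl

theorem GG_prob {q : Edg → unitInterval} {V : ℝ} (hV : VB q V) (r s : ℕ) :
    (pl q).real (GG r s)ᶜ ≤ perc.real {ω | Late r s ω} + 28 * Real.sqrt V := by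
  have h1 : (GG r s)ᶜ ⊆ {ω : Conf | ∃ K, Tch s K (path ω)}ᶜ ∪ {ω : Conf | Late r s ω} := by
    intro ω hω
    by_contra hcon
    simp only [Set.mem_union, Set.mem_compl_iff, Set.mem_ofPred_eq, not_or, not_not] at hcon
    exact hω hcon
  have hm : MeasurableSet {ω : Conf | ∃ K, Tch s K (path ω)} := by
    have : {ω : Conf | ∃ K, Tch s K (path ω)} = ⋃ K, {ω : Conf | Tch s K (path ω)} := by
      ext ω; simp
    rw [this]
    exact MeasurableSet.iUnion fun K => depE_meas (depE_tch s K)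
  have h2 := late_tv hV r s
  have h3 := touch_tv hV s
  have h4 := probReal_compl_eq_one_sub (μ := pl q) hm
  refine (measureReal_mono h1).trans ((measureReal_union_le _ _).trans ?_)
  linarith

/-- **The key estimate.** -/
theorem lim_key {q : Edg → unitInterval}
    (hs : Summable fun e => (2 * (q e : ℝ) - 1) ^ 2 * vis e) {ε : ℝ} (hε : 0 < ε) :
    ∃ B : ℝ, 0 ≤ B ∧ ∀ (n : ℕ) (Φ : (ℕ → St) → ℝ) (L : ℝ), (∀ p, |Φ p| ≤ 1) → 0 ≤ L →
      LipP n L Φ → |(∫ ω, Φ (path ω) ∂pl q) - ∫ ω, Φ (path ω) ∂perc| ≤ L * B + ε := by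
  -- the box
  obtain ⟨r, hr1, hr⟩ : ∃ r : ℕ, 1 ≤ r ∧
      70 * Real.sqrt (∑' e, (2 * (qr q r e : ℝ) - 1) ^ 2 * vis e) ≤ ε / 3 := by
    have h1 := (Real.continuous_sqrt.tendsto 0).comp (qr_tendsto hs)
    rw [Real.sqrt_zero] at h1
    have h2 := h1.const_mul 70
    rw [mul_zero] at h2
    have h3 := (h2.eventually (gt_mem_nhds (show (0:ℝ) < ε / 3 by positivity))).and
      (eventually_ge_atTop 1)
    obtain ⟨r, h4, h5⟩ := h3.exists
    exact ⟨r, h5, h4.le⟩
  set V : ℝ := ∑' e, (2 * (qr q r e : ℝ) - 1) ^ 2 * vis e with hVdef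
  have hV : VB (qr q r) V := VB_of_tsum (qr_summable hs r)
  -- the time
  obtain ⟨s, hs1⟩ : ∃ s : ℕ, 2 * perc.real {ω | Late r s ω} ≤ ε / 3 := by
    obtain ⟨a, A, ha, hA, hlate⟩ := late_prob
    have h1 : Tendsto (fun R : ℕ => ((r : ℝ) / ((R : ℝ) + 1))) atTop (𝓝 0) := by
      have := tendsto_one_div_add_atTop_nhds_zero_nat (𝕜 := ℝ)
      have h2 := this.const_mul (r : ℝ)
      rw [mul_zero] at h2
      refine h2.congr fun R => ?_
      ring
    have h2 := h1.rpow_const (p := a) (Or.inr ha.le)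
    rw [Real.zero_rpow ha.ne'] at h2
    have h3 := h2.const_mul (2 * A)
    rw [mul_zero] at h3
    obtain ⟨R, hR⟩ := (h3.eventually (gt_mem_nhds (show (0:ℝ) < ε / 3 by positivity))).exists
    refine ⟨8 * (R + 1) ^ 2, ?_⟩
    have h4 := hlate r (R + 1) hr1 (by omega)
    push_cast at h4
    have h5 : perc.real {ω | Late r (8 * (R + 1) ^ 2) ω} ≤ A * ((r : ℝ) / ((R : ℝ) + 1)) ^ a := h4
    linarith
  -- the coupling
  set μ := (pl q).prod (fair Edg) with hμ
  have hmix : Measurable fun z : Conf × Conf => mixc (QE.BB r) z.1 z.2 := measurable_mixc _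
  have hmap : μ.map (fun z : Conf × Conf => mixc (QE.BB r) z.1 z.2) = pl (qr q r) := by
    rw [hμ, fair_eq]
    exact map_mixc (QE.BB r) q fun _ => half
  have hG : μ.real {z | mixc (QE.BB r) z.1 z.2 ∈ GG r s}ᶜ ≤
      perc.real {ω | Late r s ω} + 28 * Real.sqrt V := by
    have h1 := GG_prob hV r s
    have h2 : (pl (qr q r)).real (GG r s)ᶜ = μ.real {z | mixc (QE.BB r) z.1 z.2 ∈ GG r s}ᶜ := by
      rw [← hmap, map_measureReal_apply hmix (meas_GG r s).compl]
      rfl
    rw [← h2]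
    exact h1
  obtain ⟨S, hS⟩ : ∃ S, 2 * μ.real (AS r s S)ᶜ ≤
      2 * μ.real {z | mixc (QE.BB r) z.1 z.2 ∈ GG r s}ᶜ + ε / 3 := by
    have h1 : Tendsto (fun S => μ.real (AS r s S)ᶜ) atTop (𝓝 (μ.real (⋂ S, (AS r s S)ᶜ))) := by
      refine (ENNReal.tendsto_toReal (measure_ne_top _ _)).comp
        (tendsto_measure_iInter_atTop (fun S => (meas_AS r s S).compl.nullMeasurableSet) ?_
          ⟨0, measure_ne_top _ _⟩)
      intro a b hab
      exact Set.compl_subset_compl.2 (AS_mono r s hab)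
    have h2 : μ.real (⋂ S, (AS r s S)ᶜ) ≤ μ.real {z | mixc (QE.BB r) z.1 z.2 ∈ GG r s}ᶜ := by
      refine measureReal_mono ?_
      intro z hz hz2
      obtain ⟨S, hS⟩ := GG_sub r s hz2
      exact (Set.mem_iInter.1 hz S) hS
    obtain ⟨S, hS⟩ := (h1.eventually (gt_mem_nhds (show μ.real (⋂ S, (AS r s S)ᶜ) <
      μ.real (⋂ S, (AS r s S)ᶜ) + ε / 6 by linarith))).exists
    refine ⟨S, ?_⟩
    linarith
  refine ⟨(s : ℝ) + S, by positivity, ?_⟩
  intro n Φ L hΦ1 hL hLip
  have hm1 := measurable_path hLip.dep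
  have hi : ∀ P : Measure Conf, IsProbabilityMeasure P → Integrable (fun ω => Φ (path ω)) P := by
    intro P _
    refine Integrable.of_bound hm1.aestronglyMeasurable 1 (Eventually.of_forall fun ω => ?_)
    rw [Real.norm_eq_abs]
    exact hΦ1 _
  have i1 : Integrable (fun z : Conf × Conf => Φ (path z.1)) μ := (hi (pl q) inferInstance).comp_fst _
  have i2 : Integrable (fun z : Conf × Conf => Φ (path (mixc (QE.BB r) z.1 z.2))) μ := by
    have h1 : Integrable (fun ω => Φ (path ω)) (μ.map fun z : Conf × Conf => mixc (QE.BB r) z.1 z.2) := by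
      rw [hmap]
      exact hi _ inferInstance
    exact h1.comp_measurable hmix
  have v1 : ∫ z : Conf × Conf, Φ (path z.1) ∂μ = ∫ ω, Φ (path ω) ∂pl q := by
    have h1 := integral_fun_fst (μ := pl q) (ν := fair Edg) (fun ω : Conf => Φ (path ω))
    rw [hμ]
    refine h1.trans ?_
    simp
  have v2 : ∫ z : Conf × Conf, Φ (path (mixc (QE.BB r) z.1 z.2)) ∂μ =
      ∫ ω, Φ (path ω) ∂pl (qr q r) := by
    rw [← hmap]
    exact (integral_map hmix.aemeasurable hm1.aestronglyMeasurable).symm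
  have hb : ∀ z : Conf × Conf, |Φ (path z.1) - Φ (path (mixc (QE.BB r) z.1 z.2))| ≤
      L * ((s : ℝ) + S) + 2 * (AS r s S)ᶜ.indicator (fun _ => (1:ℝ)) z := by
    intro z
    have hLS : 0 ≤ L * ((s : ℝ) + S) := by positivity
    by_cases hz : z ∈ AS r s S
    · rw [Set.indicator_of_notMem (by simpa using hz), mul_zero, add_zero]
      exact hLip (path z.1) (path (mixc (QE.BB r) z.1 z.2)) ((s : ℝ) + S) (by positivity)
        fun k _ => AS_dist hz k
    · rw [Set.indicator_of_mem (by simpa using hz)]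
      have g1 := abs_le.1 (hΦ1 (path z.1))
      have g2 := abs_le.1 (hΦ1 (path (mixc (QE.BB r) z.1 z.2)))
      rw [abs_le]
      constructor <;> linarith [g1.1, g1.2, g2.1, g2.2]
  have hmc := (meas_AS r s S).compl
  have i3 : Integrable (fun z : Conf × Conf => L * ((s : ℝ) + S) +
      2 * (AS r s S)ᶜ.indicator (fun _ => (1:ℝ)) z) μ :=
    (integrable_const _).add (((integrable_const 1).indicator hmc).const_mul 2)
  have h1 : |(∫ ω, Φ (path ω) ∂pl q) - ∫ ω, Φ (path ω) ∂pl (qr q r)| ≤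
      L * ((s : ℝ) + S) + 2 * μ.real (AS r s S)ᶜ := by
    rw [← v1, ← v2, ← integral_sub i1 i2]
    refine abs_integral_le_integral_abs.trans ?_
    refine (integral_mono_of_nonneg (Eventually.of_forall fun z => abs_nonneg _) i3
      (Eventually.of_forall hb)).trans (le_of_eq ?_)
    have w1 : ∫ z : Conf × Conf, 2 * (AS r s S)ᶜ.indicator (fun _ => (1:ℝ)) z ∂μ =
        2 * μ.real (AS r s S)ᶜ := by
      rw [integral_const_mul, integral_indicator_const _ hmc, smul_eq_mul, mul_one]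
    rw [integral_add (integrable_const _) (((integrable_const 1).indicator hmc).const_mul 2), w1]
    simp
  have h2 := path_tv' hV hΦ1 hLip.dep
  have h3 : |(∫ ω, Φ (path ω) ∂pl q) - ∫ ω, Φ (path ω) ∂perc| ≤
      |(∫ ω, Φ (path ω) ∂pl q) - ∫ ω, Φ (path ω) ∂pl (qr q r)| +
      |(∫ ω, Φ (path ω) ∂pl (qr q r)) - ∫ ω, Φ (path ω) ∂perc| := abs_sub_le _ _ _
  linarith

/-- **Bounded Lipschitz functions of the rescaled path.** -/
theorem lim_fun {q : Edg → unitInterval}
    (hs : Summable fun e => (2 * (q e : ℝ) - 1) ^ 2 * vis e) {F : C(unitInterval, ℂ) → ℝ}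
    {K : NNReal} (hK : LipschitzWith K F) (hF : ∀ f, |F f| ≤ 1) :
    Tendsto (fun n => (∫ f, F f ∂(lawQ q n : Measure C(unitInterval, ℂ))) -
      ∫ f, F f ∂(lawH n : Measure C(unitInterval, ℂ))) atTop (𝓝 0) := by
  rw [Metric.tendsto_atTop]
  intro ε hε
  obtain ⟨B, hB, h⟩ := lim_key hs (show 0 < ε / 2 by positivity)
  have h0 : Tendsto (fun n : ℕ => (K : ℝ) * B * (n : ℝ) ^ (-(4/7) : ℝ)) atTop (𝓝 0) := by
    have h1 := (tendsto_rpow_neg_atTop (y := 4/7) (by norm_num)).comp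
      (tendsto_natCast_atTop_atTop (R := ℝ))
    have h2 := h1.const_mul ((K : ℝ) * B)
    rw [mul_zero] at h2
    exact h2
  obtain ⟨n0, hn0⟩ := (h0.eventually (gt_mem_nhds (show (0:ℝ) < ε / 2 by
    positivity))).exists_forall_of_atTop
  refine ⟨n0, fun n hn => ?_⟩
  have h1 := hn0 n hn
  have hn : 0 ≤ (n : ℝ) ^ (-(4/7) : ℝ) := Real.rpow_nonneg (Nat.cast_nonneg _) _
  have h2 := h n (fun p => F (cv n p)) (K * (n : ℝ) ^ (-(4/7) : ℝ)) (fun p => hF _)
    (mul_nonneg K.2 hn) (lipP_curve hK n)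
  rw [Real.dist_eq, sub_zero, lawQ_int q n hK.continuous, lawH_int' n hK.continuous]
  refine h2.trans_lt ?_
  calc (K : ℝ) * (n : ℝ) ^ (-(4/7) : ℝ) * B + ε / 2 =
      (K : ℝ) * B * (n : ℝ) ^ (-(4/7) : ℝ) + ε / 2 := by ring
    _ < ε / 2 + ε / 2 := by linarith
    _ = ε := by ring

/-- **The scaling limit.** -/
theorem lim_law {q : Edg → unitInterval}
    (hs : Summable fun e => (2 * (q e : ℝ) - 1) ^ 2 * vis e) {φ : ℕ → ℕ}
    (hφ : Tendsto φ atTop atTop) (μ : ProbabilityMeasure C(unitInterval, ℂ)) :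
    Tendsto (fun i => lawQ q (φ i)) atTop (𝓝 μ) ↔ Tendsto (fun i => lawH (φ i)) atTop (𝓝 μ) := by
  obtain ⟨F, hF1, hF2, hF3⟩ := exists_family (Ω := C(unitInterval, ℂ))
  have hq : ∀ j, Tendsto (fun n => (∫ f, F j f ∂(lawQ q n : Measure C(unitInterval, ℂ))) -
      ∫ f, F j f ∂(lawH n : Measure C(unitInterval, ℂ))) atTop (𝓝 0) := by
    intro j
    obtain ⟨L, hL⟩ := hF2 j
    refine lim_fun hs hL fun f => ?_
    rw [abs_of_nonneg (hF1 j f).1]
    exact (hF1 j f).2
  have hconv : ∀ (P : ℕ → ProbabilityMeasure C(unitInterval, ℂ)), Tendsto P atTop (𝓝 μ) →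
      ∀ j, Tendsto (fun i => ∫ x, F j x ∂(P i : Measure C(unitInterval, ℂ))) atTop
        (𝓝 (∫ x, F j x ∂(μ : Measure C(unitInterval, ℂ)))) := by
    intro P hP j
    obtain ⟨L, hL⟩ := hF2 j
    rw [ProbabilityMeasure.tendsto_iff_forall_integral_tendsto] at hP
    exact hP (BoundedContinuousFunction.mkOfBound ⟨F j, hL.continuous⟩ 1 fun x y => by
      have c1 := hF1 j x
      have c2 := hF1 j y
      rw [Real.dist_eq, abs_le]
      constructor
      · show -1 ≤ F j x - F j y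
        linarith [c1.1, c1.2, c2.1, c2.2]
      · show F j x - F j y ≤ 1
        linarith [c1.1, c1.2, c2.1, c2.2])
  constructor
  · intro h
    refine hF3 _ μ fun j => ?_
    have h1 := hconv _ h j
    have h2 := h1.sub ((hq j).comp hφ)
    simp only [Function.comp, sub_sub_cancel, sub_zero] at h2
    exact h2
  · intro h
    refine hF3 _ μ fun j => ?_
    have h1 := hconv _ h j
    have h2 := ((hq j).comp hφ).add h1
    simp only [Function.comp, sub_add_cancel, zero_add] at h2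
    exact h2

end Pool.Agent.X136.DP
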