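import Pool.Agent.X136.DP.Clu
import Pool.Agent.X136.QE.Cur

set_option autoImplicit false

/-!
# The exploration path when the parameters of the edges are changed
-/

namespace Pool.Agent.X136.DP

open H974 Finset H342P H984P H984H MeasureTheory ProbabilityTheory Filter Topology
open Pool.Agent.X136.QC (pl fair Stop)
open Pool.Agent.X136.QE (Dep BW Ex JX stop_JX dep_JX dep_res card_JX ext perc_eq_fair Ex_sub
  measurable_path Fr xe)

/-- **Total variation.** -/
theorem path_tv (q : Edg → unitInterval) (n : ℕ) {Φ : (ℕ → St) → ℝ} (hΦ1 : ∀ p, |Φ p| ≤ 1)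
    (hΦ : Dep n Φ) :
    |(∫ ω, Φ (path ω) ∂pl q) - ∫ ω, Φ (path ω) ∂perc| ≤
      14 * Real.sqrt (∑ e ∈ BW n, (2 * (q e : ℝ) - 1) ^ 2 * perc.real {ω | e ∈ Ex n ω}) := by
  classical
  have key := tv_meas q (BW n) (stop_JX n) (g := fun x => Φ (path (ext (BW n) x)))
    (fun _ => hΦ1 _) (fun x x' h => dep_JX hΦ h)
  have e2 : ∀ i : BW n, rv (JX n) i = perc.real {ω | (i : Edg) ∈ Ex n ω} := by
    intro i
    unfold rv
    rw [div_eq_iff (by positivity)]
    convert card_JX n i using 2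
  have e3 : ∑ i : BW n, (2 * (q i : ℝ) - 1) ^ 2 * rv (JX n) i =
      ∑ e ∈ BW n, (2 * (q e : ℝ) - 1) ^ 2 * perc.real {ω | e ∈ Ex n ω} := by
    rw [← sum_coe_sort (BW n) (fun e => (2 * (q e : ℝ) - 1) ^ 2 * perc.real {ω | e ∈ Ex n ω})]
    exact sum_congr rfl fun i _ => by rw [e2 i]
  rw [e3] at key
  have e4 : ∀ P : Measure Conf, ∫ ω, Φ (path ω) ∂P =
      ∫ ω, Φ (path (ext (BW n) (fun i : BW n => ω i))) ∂P := by
    intro P
    congr 1
    funext ω
    exact dep_res hΦ ω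
  have e5 : ∫ ω, Φ (path ω) ∂perc =
      ∫ ω, Φ (path (ext (BW n) (fun i : BW n => ω i))) ∂fair Edg := by
    rw [e4 perc, perc_eq_fair]
  rw [e5, e4 (pl q)]
  exact key

/-- the probability that the edge `e` is examined by the path -/
noncomputable def vis (e : Edg) : ℝ := perc.real {ω | Fr e ∧ ∃ k, xe (path ω k) = e}

theorem vis_nonneg (e : Edg) : 0 ≤ vis e := measureReal_nonneg

theorem ex_le_vis (n : ℕ) (e : Edg) : perc.real {ω | e ∈ Ex n ω} ≤ vis e := by
  refine measureReal_mono ?_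
  rintro ω ⟨h, k, -, hk⟩
  exact ⟨h, k, hk⟩

/-- `V` bounds all the sums of squared biases -/
def VB (q : Edg → unitInterval) (V : ℝ) : Prop :=
  ∀ n, ∑ e ∈ BW n, (2 * (q e : ℝ) - 1) ^ 2 * perc.real {ω | e ∈ Ex n ω} ≤ V

theorem path_tv' {q : Edg → unitInterval} {V : ℝ} (hV : VB q V) {n : ℕ} {Φ : (ℕ → St) → ℝ}
    (hΦ1 : ∀ p, |Φ p| ≤ 1) (hΦ : Dep n Φ) :
    |(∫ ω, Φ (path ω) ∂pl q) - ∫ ω, Φ (path ω) ∂perc| ≤ 14 * Real.sqrt V :=
  (path_tv q n hΦ1 hΦ).trans (mul_le_mul_of_nonneg_left (Real.sqrt_le_sqrt (hV n)) (by norm_num))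

theorem VB_of_tsum {q : Edg → unitInterval}
    (h : Summable fun e => (2 * (q e : ℝ) - 1) ^ 2 * vis e) :
    VB q (∑' e, (2 * (q e : ℝ) - 1) ^ 2 * vis e) := by
  intro n
  refine le_trans (sum_le_sum fun e _ => mul_le_mul_of_nonneg_left (ex_le_vis n e) (sq_nonneg _)) ?_
  exact h.sum_le_tsum _ fun e _ => mul_nonneg (sq_nonneg _) (vis_nonneg e)

/-- `Q` depends on the first `n` steps -/
def DepE (n : ℕ) (Q : (ℕ → St) → Prop) : Prop :=
  ∀ p p' : ℕ → St, (∀ k ≤ n, p k = p' k) → (Q p ↔ Q p')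

open Classical in
theorem depE_dep {n : ℕ} {Q : (ℕ → St) → Prop} (h : DepE n Q) :
    Dep n fun p => if Q p then 1 else 0 := by
  intro p p' hp
  simp only [h p p' hp]

theorem depE_meas {n : ℕ} {Q : (ℕ → St) → Prop} (h : DepE n Q) :
    MeasurableSet {ω : Conf | Q (path ω)} := by
  classical
  have h1 := measurable_path (depE_dep h)
  have h2 : {ω : Conf | Q (path ω)} =
      (fun ω : Conf => if Q (path ω) then (1:ℝ) else 0) ⁻¹' {1} := by
    ext ω
    simp only [Set.mem_preimage, Set.mem_singleton_iff, Set.mem_ofPred_eq]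
    by_cases hq : Q (path ω) <;> simp [hq]
  rw [h2]
  exact h1 (measurableSet_singleton _)

/-- events of finitely many steps -/
theorem ev_tv {q : Edg → unitInterval} {V : ℝ} (hV : VB q V) {n : ℕ} {Q : (ℕ → St) → Prop}
    (hQ : DepE n Q) :
    |(pl q).real {ω | Q (path ω)} - perc.real {ω | Q (path ω)}| ≤ 14 * Real.sqrt V := by
  classical
  have h1 := path_tv' hV (Φ := fun p => if Q p then 1 else 0) (fun p => by
    show |(if Q p then (1:ℝ) else 0)| ≤ 1
    split_ifs <;> simp) (depE_dep hQ)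
  have hm := depE_meas hQ
  have e : ∀ P : Measure Conf, ∫ ω, (if Q (path ω) then (1:ℝ) else 0) ∂P =
      P.real {ω | Q (path ω)} := by
    intro P
    have e1 : (fun ω : Conf => if Q (path ω) then (1:ℝ) else 0) =
        {ω : Conf | Q (path ω)}.indicator (fun _ => (1:ℝ)) := by
      funext ω
      by_cases hq : Q (path ω)
      · rw [if_pos hq, Set.indicator_of_mem (show ω ∈ {ω : Conf | Q (path ω)} from hq)]
      · rw [if_neg hq, Set.indicator_of_notMem (show ω ∉ {ω : Conf | Q (path ω)} from hq)]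
    rw [e1, integral_indicator_const _ hm, smul_eq_mul, mul_one]
  rw [e, e] at h1
  exact h1

/-- increasing unions -/
theorem ev_union {q : Edg → unitInterval} {V : ℝ} (hV : VB q V) {Q : ℕ → (ℕ → St) → Prop}
    (hQ : ∀ n, DepE n (Q n)) (hmono : ∀ n p, Q n p → Q (n + 1) p) :
    |(pl q).real {ω | ∃ n, Q n (path ω)} - perc.real {ω | ∃ n, Q n (path ω)}| ≤
      14 * Real.sqrt V := by
  have hmo : ∀ p, Monotone fun n => Q n p := fun p => monotone_nat_of_le_succ fun n h => hmono n p h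
  have e : ∀ P : Measure Conf, IsProbabilityMeasure P →
      Tendsto (fun n => P.real {ω : Conf | Q n (path ω)}) atTop
        (𝓝 (P.real {ω | ∃ n, Q n (path ω)})) := by
    intro P _
    have h1 : {ω : Conf | ∃ n, Q n (path ω)} = ⋃ n, {ω : Conf | Q n (path ω)} := by
      ext ω
      simp
    rw [h1]
    refine (ENNReal.tendsto_toReal (measure_ne_top _ _)).comp (tendsto_measure_iUnion_atTop ?_)
    intro a b hab ω hω
    exact hmo _ hab hω
  have h1 := ((e (pl q) inferInstance).sub (e perc inferInstance)).abs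
  exact le_of_tendsto' h1 fun n => ev_tv hV (hQ n)

end Pool.Agent.X136.DP
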