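import Pool.Agent.X136.QC.Walsh

set_option autoImplicit false

/-!
# Total variation for functions determined by a sequentially chosen set of bits

`J ω` is a stopping set (`Stop J`), `Φ` is determined by the bits of `J ω`. The bits are fair or have
the biases `q i`. The difference of the expectations of `Φ` is at most `13 √V`, where `V` is the
sum of `(2 q i - 1) ^ 2 P(i ∈ J)`, `P` being the fair measure.
-/

namespace Pool.Agent.X136.DP

open Finset Pool.Agent.X136.QC

section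

variable {ι : Type*} [Fintype ι] [DecidableEq ι]

/-- weight of a bit -/
def bw (p : ℝ) (b : Bool) : ℝ := if b = true then p else 1 - p

theorem bw_nonneg {p : ℝ} (h : 0 ≤ p ∧ p ≤ 1) (b : Bool) : 0 ≤ bw p b := by
  cases b
  · simp only [bw]; norm_num; exact h.2
  · simp only [bw]; norm_num; exact h.1

theorem bw_sum (p : ℝ) : ∑ b : Bool, bw p b = 1 := by
  rw [Fintype.sum_bool]
  simp [bw]

/-- product weight of a set of bits -/
def pw (q : ι → ℝ) (T : Finset ι) (ω : ι → Bool) : ℝ := ∏ i ∈ T, bw (q i) (ω i)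

theorem pw_nonneg {q : ι → ℝ} (hq : ∀ i, 0 ≤ q i ∧ q i ≤ 1) (T : Finset ι) (ω : ι → Bool) :
    0 ≤ pw q T ω := prod_nonneg fun i _ => bw_nonneg (hq i) _

theorem sum_pw_univ (q : ι → ℝ) : ∑ ω : ι → Bool, pw q univ ω = 1 := by
  unfold pw
  rw [← Fintype.prod_sum (fun i b => bw (q i) b)]
  simp only [bw_sum, prod_const_one]

/-- averaging the free bits -/
theorem sum_mix (q : ι → ℝ) (T : Finset ι) (ω : ι → Bool) :
    ∑ η : ι → Bool, pw q univ (mix T ω η) = 2 ^ T.card * pw q T ω := by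
  have h1 : ∀ η : ι → Bool, pw q univ (mix T ω η) =
      ∏ i, (if i ∈ T then bw (q i) (ω i) else bw (q i) (η i)) := by
    intro η
    unfold pw mix
    refine prod_congr rfl fun i _ => ?_
    split_ifs <;> rfl
  simp only [h1]
  rw [← Fintype.prod_sum (fun i b => if i ∈ T then bw (q i) (ω i) else bw (q i) b)]
  have h2 : ∀ i, ∑ b : Bool, (if i ∈ T then bw (q i) (ω i) else bw (q i) b) =
      if i ∈ T then 2 * bw (q i) (ω i) else 1 := by
    intro i
    split_ifs
    · rw [Fintype.sum_bool]; ring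
    · exact bw_sum _
  simp only [h2]
  rw [prod_ite, prod_const_one, mul_one, prod_mul_distrib, prod_const]
  unfold pw
  have e : (univ.filter fun i => i ∈ T) = T := by ext i; simp
  rw [e]

/-- the likelihood of the revealed bits -/
noncomputable def lk (J : (ι → Bool) → Finset ι) (q : ι → ℝ) (ω : ι → Bool) : ℝ :=
  2 ^ (J ω).card * pw q (J ω) ω

theorem lk_nonneg (J : (ι → Bool) → Finset ι) {q : ι → ℝ} (hq : ∀ i, 0 ≤ q i ∧ q i ≤ 1)
    (ω : ι → Bool) : 0 ≤ lk J q ω := mul_nonneg (by positivity) (pw_nonneg hq _ _)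

/-- expectations of functions of the revealed bits -/
theorem sum_lk {J : (ι → Bool) → Finset ι} (hJ : Stop J) {Φ : (ι → Bool) → ℝ}
    (hΦ : ∀ ω ω' : ι → Bool, (∀ i ∈ J ω, ω i = ω' i) → Φ ω' = Φ ω) (q : ι → ℝ) :
    ∑ ω, Φ ω * lk J q ω = (2 : ℝ) ^ Fintype.card ι * ∑ ω, Φ ω * pw q univ ω := by
  rw [← sum_f_PP hJ hΦ]
  refine sum_congr rfl fun ω _ => ?_
  unfold PP
  rw [sum_mix]
  rfl

/-- a revealed bit is fair -/
theorem sum_sg {J : (ι → Bool) → Finset ι} (hJ : Stop J) (i : ι) (a : Bool → ℝ) :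
    ∑ ω ∈ univ.filter (fun ω => i ∈ J ω), a (ω i) =
      ((a true + a false) / 2) * ((univ.filter fun ω => i ∈ J ω).card : ℝ) := by
  set U := (univ.filter fun ω : ι → Bool => i ∈ J ω) with hU
  set f : (ι → Bool) → ℝ := fun ω => if i ∈ J ω then 0 else 1 with hf
  have hfd : ∀ ω ω' : ι → Bool, (∀ i ∈ J ω, ω i = ω' i) → f ω' = f ω := by
    intro ω ω' h
    rw [hf]
    simp only
    rw [hJ ω ω' h]
  have h1 := sum_f_PP hJ hfd (fun ω => sg (ω i))
  have h2 : ∀ ω : ι → Bool, i ∉ J ω → PP J (fun ω => sg (ω i)) ω = 0 := by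
    intro ω hω
    unfold PP
    have e : ∀ η : ι → Bool, sg (mix (J ω) ω η i) = sg (η i) := by
      intro η
      unfold mix
      rw [if_neg hω]
    simp only [e]
    have h3 := chi_orth ({i} : Finset ι) ∅
    rw [if_neg (singleton_ne_empty i)] at h3
    rw [← h3]
    refine sum_congr rfl fun η _ => ?_
    unfold chi
    rw [prod_singleton, prod_empty, mul_one]
  have h4 : ∑ ω, f ω * PP J (fun ω => sg (ω i)) ω = 0 := by
    refine sum_eq_zero fun ω _ => ?_
    by_cases h : i ∈ J ω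
    · rw [hf]; simp only [if_pos h, zero_mul]
    · rw [h2 ω h, mul_zero]
  rw [h4] at h1
  have h5 : ∑ ω, f ω * sg (ω i) = 0 := by
    have hN : (0 : ℝ) < 2 ^ Fintype.card ι := by positivity
    rcases mul_eq_zero.1 h1.symm with h | h
    · exact absurd h hN.ne'
    · exact h
  have h6 : ∑ ω : ι → Bool, sg (ω i) = 0 := by
    have h3 := chi_orth ({i} : Finset ι) ∅
    rw [if_neg (singleton_ne_empty i)] at h3
    rw [← h3]
    refine sum_congr rfl fun η _ => ?_
    unfold chi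
    rw [prod_singleton, prod_empty, mul_one]
  have h7 : ∑ ω ∈ U, sg (ω i) = 0 := by
    have : ∑ ω ∈ U, sg (ω i) = ∑ ω : ι → Bool, sg (ω i) - ∑ ω, f ω * sg (ω i) := by
      rw [← sum_sub_distrib, hU, sum_filter]
      refine sum_congr rfl fun ω _ => ?_
      rw [hf]
      simp only
      split_ifs <;> ring
    rw [this, h5, h6, sub_zero]
  have h8 : ∀ ω : ι → Bool, a (ω i) = (a true + a false) / 2 + (a true - a false) / 2 * sg (ω i) := by
    intro ω
    cases ω i
    · simp only [sg]; norm_num; ring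
    · simp only [sg]; norm_num; ring
  calc ∑ ω ∈ U, a (ω i) = ∑ ω ∈ U, ((a true + a false) / 2 + (a true - a false) / 2 * sg (ω i)) :=
        sum_congr rfl fun ω _ => h8 ω
    _ = _ := by
        rw [sum_add_distrib, ← mul_sum, h7, mul_zero, add_zero, sum_const, nsmul_eq_mul, mul_comm]

/-- the mean of a function for the fair measure -/
noncomputable def av (f : (ι → Bool) → ℝ) : ℝ := (∑ ω, f ω) / (2 : ℝ) ^ Fintype.card ι

/-- the probability that `i` is revealed, for the fair measure -/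
noncomputable def rv (J : (ι → Bool) → Finset ι) (i : ι) : ℝ :=
  ((univ.filter fun ω => i ∈ J ω).card : ℝ) / (2 : ℝ) ^ Fintype.card ι

theorem rv_nonneg (J : (ι → Bool) → Finset ι) (i : ι) : 0 ≤ rv J i := by unfold rv; positivity

theorem av_add (f g : (ι → Bool) → ℝ) : av (fun ω => f ω + g ω) = av f + av g := by
  unfold av; rw [sum_add_distrib, add_div]

theorem av_sub (f g : (ι → Bool) → ℝ) : av (fun ω => f ω - g ω) = av f - av g := by
  unfold av; rw [sum_sub_distrib, sub_div]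

theorem av_mul (c : ℝ) (f : (ι → Bool) → ℝ) : av (fun ω => c * f ω) = c * av f := by
  unfold av; rw [← mul_sum, mul_div_assoc]

theorem av_const (c : ℝ) : av (fun _ : ι → Bool => c) = c := by
  unfold av
  rw [sum_const, card_univ, Fintype.card_fun, Fintype.card_bool, nsmul_eq_mul]
  push_cast
  field_simp

theorem av_mono {f g : (ι → Bool) → ℝ} (h : ∀ ω, f ω ≤ g ω) : av f ≤ av g := by
  unfold av
  exact div_le_div_of_nonneg_right (sum_le_sum fun ω _ => h ω) (by positivity)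

theorem av_lk {J : (ι → Bool) → Finset ι} (hJ : Stop J) {Φ : (ι → Bool) → ℝ}
    (hΦ : ∀ ω ω' : ι → Bool, (∀ i ∈ J ω, ω i = ω' i) → Φ ω' = Φ ω) (q : ι → ℝ) :
    av (fun ω => Φ ω * lk J q ω) = ∑ ω, Φ ω * pw q univ ω := by
  unfold av
  rw [sum_lk hJ hΦ]
  have hN : (0 : ℝ) < 2 ^ Fintype.card ι := by positivity
  field_simp

theorem av_lk_one {J : (ι → Bool) → Finset ι} (hJ : Stop J) (q : ι → ℝ) : av (lk J q) = 1 := by
  have h := av_lk hJ (Φ := fun _ => 1) (fun _ _ _ => rfl) q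
  simp only [one_mul, sum_pw_univ] at h
  exact h

theorem av_cs (f g : (ι → Bool) → ℝ) : av (fun ω => f ω * g ω) ^ 2 ≤
    av (fun ω => f ω ^ 2) * av (fun ω => g ω ^ 2) := by
  unfold av
  have h := sum_mul_sq_le_sq_mul_sq univ f g
  have hN : (0 : ℝ) < 2 ^ Fintype.card ι := by positivity
  rw [div_pow, div_mul_div_comm, ← sq]
  exact div_le_div_of_nonneg_right h (by positivity)

/-- the mean of the logarithm of the likelihood, for nondegenerate parameters -/
theorem av_log {J : (ι → Bool) → Finset ι} (hJ : Stop J) {q : ι → ℝ}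
    (hq : ∀ i, 0 < q i ∧ q i < 1) :
    av (fun ω => Real.log (lk J q ω)) =
      ∑ i, Real.log (4 * (q i * (1 - q i))) / 2 * rv J i := by
  have hb : ∀ i b, 0 < bw (q i) b := by
    intro i b
    cases b
    · simp only [bw]; norm_num; exact (hq i).2
    · simp only [bw]; norm_num; exact (hq i).1
  have h1 : ∀ ω : ι → Bool, Real.log (lk J q ω) =
      ∑ i, if i ∈ J ω then Real.log (2 * bw (q i) (ω i)) else 0 := by
    intro ω
    have e : lk J q ω = ∏ i ∈ J ω, (2 * bw (q i) (ω i)) := by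
      unfold lk pw
      rw [prod_mul_distrib, prod_const]
    rw [e, Real.log_prod (fun i _ => by have := hb i (ω i); positivity)]
    rw [← sum_filter]
    congr 1
    ext i; simp
  unfold av
  simp only [h1]
  rw [sum_comm, sum_div]
  refine sum_congr rfl fun i _ => ?_
  rw [← sum_filter, sum_sg hJ i (fun b => Real.log (2 * bw (q i) b))]
  have e1 : Real.log (2 * bw (q i) true) + Real.log (2 * bw (q i) false) =
      Real.log (4 * (q i * (1 - q i))) := by
    have h2 := hb i true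
    have h3 := hb i false
    rw [← Real.log_mul (by positivity) (by positivity)]
    congr 1
    simp only [bw]
    norm_num
    ring
  rw [e1]
  unfold rv
  rw [mul_div_assoc]

/-- Jensen -/
theorem exp_av_le (f : (ι → Bool) → ℝ) : Real.exp (av f) ≤ av (fun ω => Real.exp (f ω)) := by
  have h : ∀ ω, Real.exp (av f) * (1 + (f ω - av f)) ≤ Real.exp (f ω) := by
    intro ω
    have h1 := Real.add_one_le_exp (f ω - av f)
    have h2 := Real.exp_pos (av f)
    have h3 : Real.exp (f ω) = Real.exp (av f) * Real.exp (f ω - av f) := by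
      rw [← Real.exp_add]; congr 1; ring
    rw [h3]
    exact mul_le_mul_of_nonneg_left (by linarith) h2.le
  have h4 := av_mono h
  rw [av_mul, av_add, av_sub, av_const, av_const, sub_self, add_zero, mul_one] at h4
  exact h4

theorem neg_log_le {x : ℝ} (h0 : 0 ≤ x) (h1 : x ≤ 1/4) : -Real.log (1 - x) ≤ 4/3 * x := by
  have h2 : 0 < 1 - x := by linarith
  have h3 := Real.one_sub_inv_le_log_of_pos h2
  have h4 : (1 - x)⁻¹ - 1 ≤ 4/3 * x := by
    rw [sub_le_iff_le_add, inv_le_comm₀ h2 (by positivity)]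
    have h5 : 0 < 4/3 * x + 1 := by positivity
    rw [inv_le_iff_one_le_mul₀ h5]
    nlinarith
  linarith

/-- **Total variation, biases at most `1 / 2`.** -/
theorem tv_small {J : (ι → Bool) → Finset ι} (hJ : Stop J) {q : ι → ℝ}
    (hq : ∀ i, |2 * q i - 1| ≤ 1/2) {Φ : (ι → Bool) → ℝ} (hΦ1 : ∀ ω, |Φ ω| ≤ 1)
    (hΦ : ∀ ω ω' : ι → Bool, (∀ i ∈ J ω, ω i = ω' i) → Φ ω' = Φ ω) :
    |∑ ω, Φ ω * pw q univ ω - av Φ| ≤
      2 * Real.sqrt (∑ i, (2 * q i - 1) ^ 2 * rv J i) := by
  have hq2 : ∀ i, 1/4 ≤ q i ∧ q i ≤ 3/4 := by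
    intro i
    have := abs_le.1 (hq i)
    constructor <;> linarith
  have hq1 : ∀ i, 0 ≤ q i ∧ q i ≤ 1 := fun i => ⟨by linarith [(hq2 i).1], by linarith [(hq2 i).2]⟩
  have hq3 : ∀ i, 0 < q i ∧ q i < 1 := fun i => ⟨by linarith [(hq2 i).1], by linarith [(hq2 i).2]⟩
  set V := ∑ i, (2 * q i - 1) ^ 2 * rv J i with hV
  have hV0 : 0 ≤ V := sum_nonneg fun i _ => mul_nonneg (sq_nonneg _) (rv_nonneg J i)
  have hpos : ∀ ω, 0 < lk J q ω := by
    intro ω
    unfold lk pw
    refine mul_pos (by positivity) (prod_pos fun i _ => ?_)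
    cases ω i
    · simp only [bw]; norm_num; exact (hq3 i).2
    · simp only [bw]; norm_num; exact (hq3 i).1
  set a := av (fun ω => Real.sqrt (lk J q ω)) with ha
  have hlog : -(2/3) * V ≤ av (fun ω => Real.log (lk J q ω)) := by
    rw [av_log hJ hq3, hV, mul_sum]
    refine sum_le_sum fun i _ => ?_
    have h1 : 4 * (q i * (1 - q i)) = 1 - (2 * q i - 1) ^ 2 := by ring
    have h2 : (2 * q i - 1) ^ 2 ≤ 1/4 := by
      have := abs_le.1 (hq i)
      nlinarith
    have h3 := neg_log_le (sq_nonneg (2 * q i - 1)) h2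
    rw [h1]
    have h4 := rv_nonneg J i
    nlinarith
  have ha1 : Real.exp (-(1/3) * V) ≤ a := by
    have h1 := exp_av_le (fun ω => 1/2 * Real.log (lk J q ω))
    rw [av_mul] at h1
    have h2 : (fun ω => Real.exp (1/2 * Real.log (lk J q ω))) = fun ω => Real.sqrt (lk J q ω) := by
      funext ω
      rw [Real.sqrt_eq_rpow, Real.rpow_def_of_pos (hpos ω), mul_comm]
    rw [h2] at h1
    refine le_trans (Real.exp_le_exp.2 ?_) h1
    linarith
  have ha2 : 1 - 2/3 * V ≤ a ^ 2 := by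
    have h1 : (Real.exp (-(1/3) * V)) ^ 2 ≤ a ^ 2 :=
      pow_le_pow_left₀ (Real.exp_pos _).le ha1 2
    have h2 : (Real.exp (-(1/3) * V)) ^ 2 = Real.exp (-(2/3) * V) := by
      rw [← Real.exp_nat_mul]; congr 1; push_cast; ring
    have h3 := Real.add_one_le_exp (-(2/3) * V)
    rw [h2] at h1
    linarith
  have ha0 : 0 ≤ a := (Real.exp_pos _).le.trans ha1
  -- the second moments
  have hsq : ∀ ω, Real.sqrt (lk J q ω) ^ 2 = lk J q ω := fun ω => Real.sq_sqrt (hpos ω).le
  have m1 : av (fun ω => (Real.sqrt (lk J q ω) - 1) ^ 2) = 2 - 2 * a := by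
    have e : (fun ω => (Real.sqrt (lk J q ω) - 1) ^ 2) =
        fun ω => (lk J q ω - 2 * Real.sqrt (lk J q ω)) + 1 := by
      funext ω
      have := hsq ω
      nlinarith
    rw [e, av_add, av_sub, av_mul, av_const]
    have := av_lk_one hJ q
    rw [show av (fun ω => lk J q ω) = 1 from this]
    ring
  have m2 : av (fun ω => (Φ ω * (Real.sqrt (lk J q ω) + 1)) ^ 2) ≤ 2 + 2 * a := by
    have e : ∀ ω, (Φ ω * (Real.sqrt (lk J q ω) + 1)) ^ 2 ≤
        (lk J q ω + 2 * Real.sqrt (lk J q ω)) + 1 := by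
      intro ω
      have h1 := hsq ω
      have h2 := abs_le.1 (hΦ1 ω)
      have h3 : Φ ω ^ 2 ≤ 1 := by nlinarith
      rw [mul_pow]
      have h4 : 0 ≤ (Real.sqrt (lk J q ω) + 1) ^ 2 := sq_nonneg _
      nlinarith
    refine (av_mono e).trans (le_of_eq ?_)
    rw [av_add, av_add, av_mul, av_const]
    rw [show av (fun ω => lk J q ω) = 1 from av_lk_one hJ q]
    ring
  have key : ∑ ω, Φ ω * pw q univ ω - av Φ =
      av (fun ω => (Real.sqrt (lk J q ω) - 1) * (Φ ω * (Real.sqrt (lk J q ω) + 1))) := by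
    rw [← av_lk hJ hΦ q, ← av_sub]
    congr 1
    funext ω
    have := hsq ω
    linear_combination (-Φ ω) * this
  have h5 := av_cs (fun ω => Real.sqrt (lk J q ω) - 1) (fun ω => Φ ω * (Real.sqrt (lk J q ω) + 1))
  rw [← key, m1] at h5
  have h6 : (∑ ω, Φ ω * pw q univ ω - av Φ) ^ 2 ≤ 4 * V := by
    have h7 : 0 ≤ 2 - 2 * a := by
      rw [← m1]
      have := av_mono (f := fun _ : ι → Bool => (0:ℝ))
        (g := fun ω => (Real.sqrt (lk J q ω) - 1) ^ 2) (fun ω => sq_nonneg _)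
      rwa [av_const] at this
    have h8 := mul_le_mul_of_nonneg_left m2 h7
    nlinarith
  rw [show 2 * Real.sqrt V = Real.sqrt (4 * V) by
    rw [Real.sqrt_mul (by norm_num), show (4:ℝ) = 2 ^ 2 by norm_num,
      Real.sqrt_sq (by norm_num)]]
  exact Real.abs_le_sqrt h6

/-- **Total variation, all biases.** -/
theorem tv_stop {J : (ι → Bool) → Finset ι} (hJ : Stop J) {q : ι → ℝ}
    (hq : ∀ i, 0 ≤ q i ∧ q i ≤ 1) {Φ : (ι → Bool) → ℝ} (hΦ1 : ∀ ω, |Φ ω| ≤ 1)
    (hΦ : ∀ ω ω' : ι → Bool, (∀ i ∈ J ω, ω i = ω' i) → Φ ω' = Φ ω) :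
    |∑ ω, Φ ω * pw q univ ω - av Φ| ≤
      14 * Real.sqrt (∑ i, (2 * q i - 1) ^ 2 * rv J i) := by
  classical
  set V := ∑ i, (2 * q i - 1) ^ 2 * rv J i with hV
  have hV0 : 0 ≤ V := sum_nonneg fun i _ => mul_nonneg (sq_nonneg _) (rv_nonneg J i)
  set q' : ι → ℝ := fun i => if |2 * q i - 1| ≤ 1/2 then q i else 1/2 with hq'
  have hq'1 : ∀ i, |2 * q' i - 1| ≤ 1/2 := by
    intro i
    rw [hq']
    simp only
    split_ifs with h
    · exact h
    · norm_num
  have hq'2 : ∀ i, 0 ≤ q' i ∧ q' i ≤ 1 := by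
    intro i
    have := abs_le.1 (hq'1 i)
    constructor <;> linarith
  have hV' : ∑ i, (2 * q' i - 1) ^ 2 * rv J i ≤ V := by
    refine sum_le_sum fun i _ => mul_le_mul_of_nonneg_right ?_ (rv_nonneg J i)
    rw [hq']
    simp only
    split_ifs with h
    · exact le_rfl
    · norm_num
      exact sq_nonneg _
  -- the event that a strongly biased bit is revealed
  set B : (ι → Bool) → ℝ := fun ω => if ∃ i ∈ J ω, ¬ |2 * q i - 1| ≤ 1/2 then 1 else 0 with hB
  have hBd : ∀ ω ω' : ι → Bool, (∀ i ∈ J ω, ω i = ω' i) → B ω' = B ω := by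
    intro ω ω' h
    rw [hB]
    simp only
    rw [hJ ω ω' h]
  have hB01 : ∀ ω, 0 ≤ B ω ∧ B ω ≤ 1 := by
    intro ω
    rw [hB]
    simp only
    split_ifs <;> norm_num
  have hsame : ∀ ω, (1 - B ω) * lk J q ω = (1 - B ω) * lk J q' ω := by
    intro ω
    by_cases h : ∃ i ∈ J ω, ¬ |2 * q i - 1| ≤ 1/2
    · have : B ω = 1 := by rw [hB]; simp only [if_pos h]
      rw [this]; ring
    · congr 1
      unfold lk pw
      congr 1
      refine prod_congr rfl fun i hi => ?_
      congr 1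
      rw [hq']
      simp only
      rw [if_pos]
      by_contra hc
      exact h ⟨i, hi, hc⟩
  have hB1 : av B ≤ 4 * V := by
    have e1 : ∀ ω, B ω ≤ ∑ i, if i ∈ J ω then 4 * (2 * q i - 1) ^ 2 else 0 := by
      intro ω
      have hnn : ∀ i ∈ (univ : Finset ι), (0:ℝ) ≤ if i ∈ J ω then 4 * (2 * q i - 1) ^ 2 else 0 := by
        intro i _
        split_ifs
        · positivity
        · exact le_rfl
      by_cases h : ∃ i ∈ J ω, ¬ |2 * q i - 1| ≤ 1/2
      · have e2 : B ω = 1 := by rw [hB]; simp only [if_pos h]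
        obtain ⟨i, hi, hi2⟩ := h
        rw [e2]
        refine le_trans ?_ (single_le_sum hnn (mem_univ i))
        rw [if_pos hi]
        push Not at hi2
        have h3 : (1/2 : ℝ) ^ 2 ≤ |2 * q i - 1| ^ 2 := pow_le_pow_left₀ (by norm_num) hi2.le 2
        rw [sq_abs] at h3
        linarith
      · have e2 : B ω = 0 := by rw [hB]; simp only [if_neg h]
        rw [e2]
        exact sum_nonneg hnn
    refine (av_mono e1).trans (le_of_eq ?_)
    unfold av
    rw [sum_comm, sum_div, hV, mul_sum]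
    refine sum_congr rfl fun i _ => ?_
    rw [← sum_filter, sum_const, nsmul_eq_mul]
    unfold rv
    ring
  -- the probability of this event for `q'` (and for `q`)
  have t1 := tv_small hJ hq'1 (Φ := B) (fun ω => by
    rw [abs_le]; constructor <;> linarith [(hB01 ω).1, (hB01 ω).2]) hBd
  have t2 := tv_small hJ hq'1 hΦ1 hΦ
  have hs := Real.sqrt_le_sqrt hV'
  set s := Real.sqrt V with hs'
  have hs0 : 0 ≤ s := Real.sqrt_nonneg _
  have hss : s ^ 2 = V := Real.sq_sqrt hV0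
  have u1 : ∑ ω, B ω * pw q' univ ω ≤ 4 * V + 2 * s := by
    have := abs_le.1 t1
    linarith
  have hnb : ∀ ω ω' : ι → Bool, (∀ i ∈ J ω, ω i = ω' i) → (1 - B ω') = (1 - B ω) :=
    fun ω ω' h => by rw [hBd ω ω' h]
  have e1 : ∑ ω, (1 - B ω) * pw q univ ω = ∑ ω, (1 - B ω) * pw q' univ ω := by
    rw [← av_lk hJ (Φ := fun ω => 1 - B ω) hnb q, ← av_lk hJ (Φ := fun ω => 1 - B ω) hnb q']
    congr 1
    funext ω
    exact hsame ω
  have e2 : ∑ ω, B ω * pw q univ ω = ∑ ω, B ω * pw q' univ ω := by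
    have h1 : ∑ ω, (1 - B ω) * pw q univ ω = 1 - ∑ ω, B ω * pw q univ ω := by
      simp only [sub_mul, one_mul]
      rw [sum_sub_distrib, sum_pw_univ]
    have h2 : ∑ ω, (1 - B ω) * pw q' univ ω = 1 - ∑ ω, B ω * pw q' univ ω := by
      simp only [sub_mul, one_mul]
      rw [sum_sub_distrib, sum_pw_univ]
    linarith
  have e3 : ∑ ω, (Φ ω * (1 - B ω)) * pw q univ ω = ∑ ω, (Φ ω * (1 - B ω)) * pw q' univ ω := by
    have hd : ∀ ω ω' : ι → Bool, (∀ i ∈ J ω, ω i = ω' i) →
        Φ ω' * (1 - B ω') = Φ ω * (1 - B ω) := fun ω ω' h => by rw [hBd ω ω' h, hΦ ω ω' h]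
    rw [← av_lk hJ (Φ := fun ω => Φ ω * (1 - B ω)) hd q,
      ← av_lk hJ (Φ := fun ω => Φ ω * (1 - B ω)) hd q']
    congr 1
    funext ω
    rw [mul_assoc, hsame ω, ← mul_assoc]
  have hle : ∀ p : ι → ℝ, (∀ i, 0 ≤ p i ∧ p i ≤ 1) →
      |∑ ω, Φ ω * pw p univ ω - ∑ ω, (Φ ω * (1 - B ω)) * pw p univ ω| ≤
        ∑ ω, B ω * pw p univ ω := by
    intro p hp
    rw [← sum_sub_distrib]
    refine (abs_sum_le_sum_abs _ _).trans (sum_le_sum fun ω _ => ?_)
    rw [show Φ ω * pw p univ ω - Φ ω * (1 - B ω) * pw p univ ω = Φ ω * (B ω * pw p univ ω) by ring,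
      abs_mul, abs_of_nonneg (mul_nonneg (hB01 ω).1 (pw_nonneg hp _ _))]
    exact mul_le_of_le_one_left (mul_nonneg (hB01 ω).1 (pw_nonneg hp _ _)) (hΦ1 ω)
  have l1 := abs_le.1 (hle q hq)
  have l2 := abs_le.1 (hle q' hq'2)
  have l3 := abs_le.1 t2
  rw [e2] at l1
  rw [e3] at l1
  have hfin : |∑ ω, Φ ω * pw q univ ω - av Φ| ≤ 8 * V + 6 * s := by
    rw [abs_le]
    constructor <;> linarith [l1.1, l1.2, l2.1, l2.2, l3.1, l3.2]
  rcases le_total s 1 with h | h
  · refine hfin.trans ?_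
    nlinarith
  · have b1 : |∑ ω, Φ ω * pw q univ ω| ≤ 1 := by
      refine (abs_sum_le_sum_abs _ _).trans ?_
      rw [← sum_pw_univ q]
      refine sum_le_sum fun ω _ => ?_
      rw [abs_mul, abs_of_nonneg (pw_nonneg hq _ _)]
      exact mul_le_of_le_one_left (pw_nonneg hq _ _) (hΦ1 ω)
    have b2 : |av Φ| ≤ 1 := by
      rw [abs_le]
      constructor
      · have := av_mono (f := fun _ : ι → Bool => (-1:ℝ)) (g := Φ) fun ω => (abs_le.1 (hΦ1 ω)).1
        rwa [av_const] at this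
      · have := av_mono (f := Φ) (g := fun _ : ι → Bool => (1:ℝ)) fun ω => (abs_le.1 (hΦ1 ω)).2
        rwa [av_const] at this
    rw [abs_le] at b1 b2 ⊢
    constructor <;> linarith

end

end Pool.Agent.X136.DP
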